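import Pool.Agent.Y743.SD.Stm

/-! Project SD: the twisted sum over the primes up to `T ^ θ`. -/

set_option autoImplicit false

open MeasureTheory Filter

namespace Pool.Agent.Y743.SD

open Pool.Agent.Y743.AF (Prm mem_Prm)

theorem co (sq : S_SQ) (tl : S_TL) : S_CO := by
  classical
  intro RH
  obtain ⟨Ct, hCt, htl⟩ := tl
  refine ⟨Ct + 2, by linarith, fun K θ hK hθ hθ1 => ?_⟩
  obtain ⟨T1, hT1, hsq⟩ := sq RH K hK
  have hev : ∀ᶠ T : ℝ in atTop, T1 ≤ T ∧ 10 ≤ T ∧ 1 / (16 * θ) ≤ Real.log T ∧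
      2 ≤ T ^ (θ / 2) := by
    filter_upwards [eventually_ge_atTop T1, eventually_ge_atTop 10,
      Real.tendsto_log_atTop.eventually_ge_atTop _,
      (tendsto_rpow_atTop (show 0 < θ / 2 by linarith)).eventually_ge_atTop 2] with T h1 h2 h3 h4
    exact ⟨h1, h2, h3, h4⟩
  obtain ⟨T0, hT0⟩ := hev.exists_forall_of_atTop
  refine ⟨max T0 10, le_max_right _ _, fun T hT c hc1 hc2 => ?_⟩
  obtain ⟨hTT1, hT10, hTL, hTθ⟩ := hT0 T ((le_max_left _ _).trans hT)
  have hTpos : 0 < T := by linarith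
  set L := Real.log T with hL
  have hL0 : 0 < L := lt_of_lt_of_le (by positivity) hTL
  set X : ℕ := ⌊T ^ θ⌋₊ with hX
  set h : ℝ := K / L with hh
  set δ : ℝ := 1 / (16 * (θ * L)) with hδ
  have hθL : 0 < θ * L := by positivity
  have hδ0 : 0 < δ := by positivity
  have hδ1 : δ ≤ 1 := by
    rw [hδ, div_le_one (by positivity)]
    rw [div_le_iff₀ (by positivity)] at hTL
    linarith
  have hδθ : δ * (θ * L) = 1 / 16 := by rw [hδ]; field_simp
  -- the size of `X`
  have hXhi : (X : ℝ) ≤ T ^ θ := Nat.floor_le (by positivity)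
  have hXlo : T ^ (θ / 2) ≤ X := by
    have h1 : T ^ θ < X + 1 := Nat.lt_floor_add_one _
    have h2 : T ^ θ = T ^ (θ / 2) * T ^ (θ / 2) := by
      rw [← Real.rpow_add hTpos]; congr 1; ring
    nlinarith
  have hX2 : 2 ≤ X := by
    have : (2 : ℝ) ≤ X := hTθ.trans hXlo
    exact_mod_cast this
  have hlogX : θ * L / 2 ≤ Real.log X := by
    have h1 := Real.log_le_log (by positivity) hXlo
    rw [Real.log_rpow hTpos] at h1
    linarith
  have hδX : 1 / 32 ≤ δ * Real.log X := by
    have h1 := mul_le_mul_of_nonneg_left hlogX hδ0.le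
    linarith
  have ht := htl X δ hX2 hδ0 hδX
  have hs := hsq T hTT1 δ hδ0 hδ1 |c| hc1 hc2
  -- the functions
  set F : ℕ → ℝ := fun p => (p : ℝ) ^ (-(1 + δ)) * Real.sin (h / 2 * Real.log p) ^ 2 *
    Real.cos (|c| * Real.log p) with hF
  have hsum0 : Summable (fun p : Nat.Primes => (p : ℝ) ^ (-(1 + δ))) :=
    Nat.Primes.summable_rpow.2 (by linarith)
  have hFle : ∀ p : Nat.Primes, |F p| ≤ (p : ℝ) ^ (-(1 + δ)) := by
    intro p
    have hp0 : 0 ≤ ((p : ℕ) : ℝ) ^ (-(1 + δ)) := by positivity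
    simp only [hF]
    rw [abs_mul, abs_mul, abs_of_nonneg hp0, abs_of_nonneg (sq_nonneg _)]
    have h1 := Real.sin_sq_le_one (h / 2 * Real.log (p : ℕ))
    have h2 := Real.abs_cos_le_one (|c| * Real.log (p : ℕ))
    calc ((p : ℕ) : ℝ) ^ (-(1 + δ)) * Real.sin (h / 2 * Real.log (p : ℕ)) ^ 2 *
          |Real.cos (|c| * Real.log (p : ℕ))| ≤ ((p : ℕ) : ℝ) ^ (-(1 + δ)) * 1 * 1 := by
          apply mul_le_mul _ h2 (abs_nonneg _) (by positivity)
          exact mul_le_mul_of_nonneg_left h1 hp0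
      _ = _ := by ring
  have hFs : Summable (fun p : Nat.Primes => F p) := by
    refine Summable.of_norm_bounded hsum0 fun p => ?_
    rw [Real.norm_eq_abs]; exact hFle p
  set A : Nat.Primes → ℝ := fun p => if (p : ℕ) ≤ X then F p else 0 with hA
  set B : Nat.Primes → ℝ := fun p => if (p : ℕ) ≤ X then 0 else F p with hB
  set D : Nat.Primes → ℝ := fun p => if (p : ℕ) ≤ X then 0 else (p : ℝ) ^ (-(1 + δ)) with hD
  have hDs : Summable D := by
    refine Summable.of_norm_bounded hsum0 fun p => ?_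
    simp only [hD]
    split_ifs
    · rw [norm_zero]; positivity
    · rw [Real.norm_eq_abs, abs_of_nonneg (by positivity)]
  have hBD : ∀ p, |B p| ≤ D p := by
    intro p
    simp only [hB, hD]
    split_ifs
    · simp
    · exact hFle p
  have hBs : Summable B := Summable.of_norm_bounded hDs fun p => by
    rw [Real.norm_eq_abs]; exact hBD p
  have hBt : |∑' p, B p| ≤ Ct := by
    have h1 : ‖∑' p, B p‖ ≤ ∑' p, D p :=
      tsum_of_norm_bounded hDs.hasSum fun p => by rw [Real.norm_eq_abs]; exact hBD p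
    rw [Real.norm_eq_abs] at h1
    exact h1.trans ht
  have hAF : ∀ p, A p = F p - B p := by
    intro p
    simp only [hA, hB]
    split_ifs <;> ring
  have hAt : ∑' p, A p = (∑' p : Nat.Primes, F p) - ∑' p, B p := by
    rw [← hFs.tsum_sub hBs]
    exact tsum_congr hAF
  have hAfin : ∑' p, A p = ∑ p ∈ Prm X, F p := by
    have h0 : ∑' p, A p = ∑ p ∈ (show Finset Nat.Primes from (Prm X).subtype Nat.Prime), A p := by
      apply tsum_eq_sum
      intro p hp
      have hp' : ¬ (p : ℕ) ∈ Prm X := fun h1 => hp (Finset.mem_subtype.2 h1)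
      rw [mem_Prm] at hp'
      simp only [hA]
      rw [if_neg]
      intro h1
      exact hp' ⟨p.2, h1⟩
    rw [h0]
    refine (Finset.sum_subtype_of_mem (fun n : ℕ => if n ≤ X then F n else 0)
        (fun n hn => (mem_Prm.1 hn).1)).trans ?_
    refine Finset.sum_congr rfl fun n hn => ?_
    rw [if_pos (mem_Prm.1 hn).2]
  have hFsum : |∑ p ∈ Prm X, F p| ≤ 1 + Ct := by
    rw [← hAfin, hAt]
    have h1 := abs_sub (∑' p : Nat.Primes, F p) (∑' p, B p)
    have h2 : |∑' p : Nat.Primes, F p| ≤ 1 := hs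
    linarith
  -- comparison
  set W : ℕ → ℝ := fun p => Real.sin (h / 2 * Real.log p) ^ 2 / p with hW
  have hW0 : ∀ p, 0 ≤ W p := fun p => by simp only [hW]; positivity
  have hcos : ∀ p : ℕ, 1 ≤ p → Real.cos (c * Real.log p) = Real.cos (|c| * Real.log p) := by
    intro p hp
    have hl : 0 ≤ Real.log p := Real.log_nonneg (by exact_mod_cast hp)
    rw [← Real.cos_abs (c * Real.log p), abs_mul, abs_of_nonneg hl]
  have hdiff : |∑ p ∈ Prm X, (W p * Real.cos (c * Real.log p) - F p)| ≤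
      1 / 16 * ∑ p ∈ Prm X, W p := by
    rw [Finset.mul_sum]
    refine (Finset.abs_sum_le_sum_abs _ _).trans (Finset.sum_le_sum fun p hp => ?_)
    obtain ⟨hpp, hpX⟩ := mem_Prm.1 hp
    have hp0 : (0 : ℝ) < p := by exact_mod_cast hpp.pos
    have hl : 0 ≤ Real.log p := Real.log_nonneg (by exact_mod_cast hpp.one_le)
    have hlp : Real.log p ≤ θ * L := by
      have h1 : (p : ℝ) ≤ T ^ θ := by
        have : (p : ℝ) ≤ X := by exact_mod_cast hpX
        linarith
      have h2 := Real.log_le_log hp0 h1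
      rwa [Real.log_rpow hTpos] at h2
    have e : F p = (p : ℝ) ^ (-δ) * (W p * Real.cos (|c| * Real.log p)) := by
      simp only [hF, hW]
      rw [neg_add, Real.rpow_add hp0, Real.rpow_neg_one]
      ring
    rw [hcos p hpp.one_le, e]
    have e2 : W p * Real.cos (|c| * Real.log p) - (p : ℝ) ^ (-δ) *
        (W p * Real.cos (|c| * Real.log p)) = (1 - (p : ℝ) ^ (-δ)) * (W p *
        Real.cos (|c| * Real.log p)) := by ring
    rw [e2, abs_mul, abs_mul, abs_of_nonneg (hW0 p)]
    have e3 : (p : ℝ) ^ (-δ) = Real.exp (-(δ * Real.log p)) := by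
      rw [Real.rpow_def_of_pos hp0]; congr 1; ring
    have h1 : |1 - (p : ℝ) ^ (-δ)| ≤ 1 / 16 := by
      rw [e3]
      have k1 := Real.add_one_le_exp (-(δ * Real.log p))
      have k2 : δ * Real.log p ≤ δ * (θ * L) := mul_le_mul_of_nonneg_left hlp hδ0.le
      have k3 : Real.exp (-(δ * Real.log p)) ≤ 1 := by
        rw [Real.exp_le_one_iff]
        have := mul_nonneg hδ0.le hl
        linarith
      rw [abs_of_nonneg (by linarith)]
      linarith
    have h2 := Real.abs_cos_le_one (|c| * Real.log p)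
    have h3 : W p * |Real.cos (|c| * Real.log p)| ≤ W p * 1 := mul_le_mul_of_nonneg_left h2 (hW0 p)
    calc |1 - (p : ℝ) ^ (-δ)| * (W p * |Real.cos (|c| * Real.log p)|) ≤ 1 / 16 * (W p * 1) :=
          mul_le_mul h1 h3 (mul_nonneg (hW0 p) (abs_nonneg _)) (by norm_num)
      _ = 1 / 16 * W p := by ring
  rw [Finset.sum_sub_distrib] at hdiff
  have h1 := abs_le.1 hdiff
  have h2 := abs_le.1 hFsum
  rw [abs_le]
  constructor
  · linarith [h1.1, h2.1]
  · linarith [h1.2, h2.2]

end Pool.Agent.Y743.SD
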