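import Pool.Agent.Y743.SD.Stm
import Pool.Agent.Y130.CC.FdCvMb

/-! Project SD: the windows under a matching. -/

set_option autoImplicit false

open MeasureTheory Filter

namespace Pool.Agent.Y743.SD

open Pool.Agent.Y130.CC (ind_int)

theorem mc : S_MC := by
  intro S x y A B h η hAB hh hη
  classical
  let P : ℕ → Prop := fun n => η < |x n - y n|
  let w1 : ℕ → ℝ → ℝ := fun n t => if P n then Set.indicator (Set.Icc (x n - h) (x n)) (1 : ℝ → ℝ) t else
    Set.indicator (Set.Icc (x n - η) (x n)) (1 : ℝ → ℝ) t +
      Set.indicator (Set.Icc (x n - h) (x n - h + η)) (1 : ℝ → ℝ) t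
  have hi : ∀ n, IntervalIntegrable (w1 n) volume A B ∧
      ∫ t in A..B, w1 n t ≤ 2 * η + (if P n then h else 0) := by
    intro n
    by_cases hP : P n
    · have e : w1 n = Set.indicator (Set.Icc (x n - h) (x n)) (1 : ℝ → ℝ) := by
        funext t
        exact if_pos hP
      rw [e, if_pos hP]
      obtain ⟨h1, h2⟩ := ind_int A B (x n - h) (x n) hAB (by linarith)
      refine ⟨h1, h2.trans ?_⟩
      linarith
    · have e : w1 n = fun t => Set.indicator (Set.Icc (x n - η) (x n)) (1 : ℝ → ℝ) t +
          Set.indicator (Set.Icc (x n - h) (x n - h + η)) (1 : ℝ → ℝ) t := by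
        funext t
        exact if_neg hP
      rw [e, if_neg hP]
      obtain ⟨h1, h2⟩ := ind_int A B (x n - η) (x n) hAB (by linarith)
      obtain ⟨h3, h4⟩ := ind_int A B (x n - h) (x n - h + η) hAB (by linarith)
      refine ⟨h1.add h3, ?_⟩
      rw [intervalIntegral.integral_add h1 h3]
      linarith
  have hnn : ∀ n t, 0 ≤ w1 n t := by
    intro n t
    show 0 ≤ ite _ _ _
    split_ifs
    · exact Set.indicator_nonneg (fun _ _ => zero_le_one) t
    · exact add_nonneg (Set.indicator_nonneg (fun _ _ => zero_le_one) t)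
        (Set.indicator_nonneg (fun _ _ => zero_le_one) t)
  refine ⟨fun t => ∑ n ∈ S, w1 n t, ?_, fun t => Finset.sum_nonneg fun n _ => hnn n t, ?_, ?_⟩
  · have hs := IntervalIntegrable.sum (μ := volume) (a := A) (b := B) S (f := w1) fun n _ => (hi n).1
    have he : (∑ n ∈ S, w1 n) = fun t => ∑ n ∈ S, w1 n t := by
      funext t
      exact Finset.sum_apply t S w1
    rwa [he] at hs
  · intro t ht
    rw [Finset.card_filter]
    push_cast
    refine Finset.sum_le_sum fun n hn => ?_
    split_ifs with hc
    · obtain ⟨⟨c1, c2⟩, c3⟩ := hc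
      show (1 : ℝ) ≤ ite _ _ _
      split_ifs with hP
      · rw [Set.indicator_of_mem]
        · rfl
        · exact ⟨by linarith, c1.le⟩
      · have hP' : |x n - y n| ≤ η := not_lt.1 hP
        rw [abs_le] at hP'
        by_cases c4 : y n ≤ t
        · have hm : t ∈ Set.Icc (x n - η) (x n) := ⟨by linarith [hP'.2], c1.le⟩
          rw [Set.indicator_of_mem hm]
          have := Set.indicator_nonneg (s := Set.Icc (x n - h) (x n - h + η)) (f := (1 : ℝ → ℝ))
            (fun _ _ => zero_le_one) t
          simp only [Pi.one_apply]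
          linarith
        · have c5 : t + h ≤ y n := by
            by_contra c6
            exact c3 ⟨not_le.1 c4, not_le.1 c6⟩
          have hm : t ∈ Set.Icc (x n - h) (x n - h + η) := ⟨by linarith, by linarith [hP'.1]⟩
          rw [Set.indicator_of_mem hm]
          have := Set.indicator_nonneg (s := Set.Icc (x n - η) (x n)) (f := (1 : ℝ → ℝ))
            (fun _ _ => zero_le_one) t
          simp only [Pi.one_apply]
          linarith
    · exact hnn n t
  · rw [intervalIntegral.integral_finsetSum (fun n _ => (hi n).1)]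
    calc ∑ n ∈ S, ∫ t in A..B, w1 n t ≤ ∑ n ∈ S, (2 * η + (if P n then h else 0)) :=
          Finset.sum_le_sum fun n _ => (hi n).2
      _ = _ := by
          rw [Finset.sum_add_distrib, Finset.sum_const, nsmul_eq_mul, Finset.sum_ite,
            Finset.sum_const_zero, add_zero, Finset.sum_const, nsmul_eq_mul]
          ring

end Pool.Agent.Y743.SD
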