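import Pool.Agent.Y743.SD.Det

/-! Project SD: the numbers of ordinates in a window and in its translate (or its reflection) differ
in the mean. -/

set_option autoImplicit false

namespace Pool.Agent.Y743.SD

open Complex Filter Topology MeasureTheory Set
open Pool.Agent.TH850.UV
open SG (NZ)
open Pool.Agent.Y743.AF (Prm PP PP_cont S_CR2 VS_eq' er_eq abs_int_le rc_abs_le
  rc_abs_le' rc_prime_le mem_Prm Wp Wp_nonneg dev_sum)
open Pool.Agent.Y743.CL (G rc VS XK rc_bd VS_nonneg comb er er_meas)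

/-- an isometry, on the level of the integrals -/
structure Iso (T : ℝ) (y : ℝ → ℝ) (A' B' : ℝ) : Prop where
  int : ∀ F : ℝ → ℝ, ∫ t in (5 / 4 * T)..(7 / 4 * T), F (y t) = ∫ s in A'..B', F s
  ii : ∀ F : ℝ → ℝ, IntervalIntegrable F volume A' B' →
    IntervalIntegrable (fun t => F (y t)) volume (5 / 4 * T) (7 / 4 * T)
  lo : 17 / 16 * T ≤ A'
  hi : B' ≤ 31 / 16 * T
  len : B' - A' = T / 2

lemma NZ_ii (s A B : ℝ) : IntervalIntegrable (fun t => (NZ (t + s) : ℝ)) volume A B := by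
  have hm : Monotone fun t : ℝ => (NZ (t + s) : ℝ) := by
    intro x y hxy
    have h2 := SG.NZ_mono (show x + s ≤ y + s by linarith)
    show (NZ (x + s) : ℝ) ≤ NZ (y + s)
    exact_mod_cast h2
  exact hm.intervalIntegrable

/-- the correlation of the coefficients -/
lemma cor {ℓ θ C K T c : ℝ} (hℓ : 16 ≤ ℓ) (hθ : 0 < θ) (hθℓ : θ * ℓ ≤ 1 / 1000) (hT : 1 ≤ T)
    (hTL : 1000 * ℓ ≤ Real.log T) (hK : 0 < K) (hKT : K / Real.log T ≤ 1 / 2000) (hC : 0 < C)
    (h : |∑ p ∈ Prm ⌊T ^ θ⌋₊, Real.sin (K / Real.log T / 2 * Real.log p) ^ 2 / p *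
      Real.cos (c * Real.log p)| ≤
    1 / 16 * (∑ p ∈ Prm ⌊T ^ θ⌋₊, Real.sin (K / Real.log T / 2 * Real.log p) ^ 2 / p) + C) :
    |∑ p ∈ Prm (XK θ T), rc (Real.log T / ℓ) (K / Real.log T) p * rc (Real.log T / ℓ) (K / Real.log T) p *
      Real.cos (c * Real.log p)| ≤
    VS (rc (Real.log T / ℓ) (K / Real.log T)) (XK θ T) / 5 + C + 1 := by
  have hℓ0 : 0 < ℓ := by linarith
  have hpi := Real.pi_gt_three
  have hT0 : 0 < T := by linarith
  set L := Real.log T with hL
  have hL0 : 0 < L := by linarith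
  set l := L / ℓ with hl
  have hl1 : 1000 ≤ l := by rw [hl, le_div_iff₀ hℓ0]; exact hTL
  have hl0 : 0 < l := by linarith
  set h' := K / L with hh
  have hh1 : 0 < h' := by positivity
  have hXlog : ∀ p : ℕ, 1 ≤ p → p ≤ XK θ T → Real.log p ≤ θ * L := by
    intro p hp1 hp
    have h1 : (p : ℝ) ≤ T ^ θ := by
      have h2 : (XK θ T : ℝ) ≤ T ^ θ := Nat.floor_le (by positivity)
      have h3 : (p : ℝ) ≤ XK θ T := by exact_mod_cast hp
      linarith
    have h2 := Real.log_le_log (by exact_mod_cast hp1) h1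
    rwa [Real.log_rpow hT0] at h2
  have hdev := dev_sum (h := h') hl1 (XK θ T) (fun p hp => by
    have hp' := mem_Prm.1 hp
    refine (hXlog p hp'.1.one_le hp'.2).trans ?_
    rw [hl]
    have : θ * L = (θ * ℓ) * (L / ℓ) := by field_simp
    rw [this]
    have := mul_le_mul_of_nonneg_right hθℓ (show 0 ≤ L / ℓ by positivity)
    linarith)
  have e1 : ∑ p ∈ Prm (XK θ T), rc l h' p * rc l h' p * Real.cos (c * Real.log p) =
      ∑ p ∈ Prm (XK θ T), Wp h' p * Real.cos (c * Real.log p) -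
      ∑ p ∈ Prm (XK θ T), (Wp h' p - rc l h' p ^ 2) * Real.cos (c * Real.log p) := by
    rw [← Finset.sum_sub_distrib]
    refine Finset.sum_congr rfl fun p _ => ?_
    ring
  have e2 : ∑ p ∈ Prm (XK θ T), Wp h' p * Real.cos (c * Real.log p) = 4 / Real.pi ^ 2 *
      ∑ p ∈ Prm (XK θ T), Real.sin (h' / 2 * Real.log p) ^ 2 / p * Real.cos (c * Real.log p) := by
    rw [Finset.mul_sum]
    refine Finset.sum_congr rfl fun p _ => ?_
    unfold Wp
    ring
  have e3 : ∑ p ∈ Prm (XK θ T), Wp h' p = 4 / Real.pi ^ 2 *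
      ∑ p ∈ Prm (XK θ T), Real.sin (h' / 2 * Real.log p) ^ 2 / p := by
    rw [Finset.mul_sum]
    refine Finset.sum_congr rfl fun p _ => ?_
    unfold Wp
    ring
  have h41 : 4 / Real.pi ^ 2 ≤ 1 := by
    rw [div_le_one (by positivity)]; nlinarith
  have h2 : |∑ p ∈ Prm (XK θ T), Wp h' p * Real.cos (c * Real.log p)| ≤
      1 / 16 * (∑ p ∈ Prm (XK θ T), Wp h' p) + C := by
    rw [e2, e3, abs_mul, abs_of_nonneg (show 0 ≤ 4 / Real.pi ^ 2 by positivity)]
    have h3 := mul_le_mul_of_nonneg_left h (show 0 ≤ 4 / Real.pi ^ 2 by positivity)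
    have h4 : 4 / Real.pi ^ 2 * C ≤ 1 * C := mul_le_mul_of_nonneg_right h41 hC.le
    refine h3.trans ?_
    rw [mul_add]
    have e4 : 4 / Real.pi ^ 2 * (1 / 16 * ∑ p ∈ Prm ⌊T ^ θ⌋₊, Real.sin (h' / 2 * Real.log p) ^ 2 / p) =
      1 / 16 * (4 / Real.pi ^ 2 * ∑ p ∈ Prm (XK θ T), Real.sin (h' / 2 * Real.log p) ^ 2 / p) := by
      unfold Pool.Agent.Y743.CL.XK
      ring
    rw [e4]
    linarith
  have h3 : |∑ p ∈ Prm (XK θ T), (Wp h' p - rc l h' p ^ 2) * Real.cos (c * Real.log p)| ≤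
      ∑ p ∈ Prm (XK θ T), (Wp h' p - rc l h' p ^ 2) := by
    refine (Finset.abs_sum_le_sum_abs _ _).trans (Finset.sum_le_sum fun p hp => ?_)
    have h4 : 0 ≤ Wp h' p - rc l h' p ^ 2 := by
      have := rc_prime_le hl0 h' p (mem_Prm.1 hp).1
      unfold Wp
      linarith
    rw [abs_mul, abs_of_nonneg h4]
    exact mul_le_of_le_one_right h4 (Real.abs_cos_le_one _)
  have h5 : ∑ p ∈ Prm (XK θ T), Wp h' p = VS (rc l h') (XK θ T) +
      ∑ p ∈ Prm (XK θ T), (Wp h' p - rc l h' p ^ 2) := by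
    rw [VS_eq', Finset.sum_sub_distrib]; ring
  rw [e1]
  have h6 : h' ^ 2 ≤ (1 / 2000) ^ 2 := pow_le_pow_left₀ hh1.le hKT 2
  have h7 := abs_sub (∑ p ∈ Prm (XK θ T), Wp h' p * Real.cos (c * Real.log p))
    (∑ p ∈ Prm (XK θ T), (Wp h' p - rc l h' p ^ 2) * Real.cos (c * Real.log p))
  have h8 := VS_nonneg (rc l h') (XK θ T)
  rw [h5] at h2
  norm_num at h6
  linarith

theorem core3 (cr2 : S_CR2) (co : S_CO) (RH : RiemannHypothesis) : ∃ a T0 : ℝ, 1 ≤ a ∧ 10 ≤ T0 ∧
    ∀ T : ℝ, T0 ≤ T → ∀ (y : ℝ → ℝ) (A' B' c' : ℝ), Iso T y A' B' →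
      4 * Real.pi * a / Real.log T ≤ |c'| → |c'| ≤ 4 * T →
      (∀ (X : ℕ) (u : ℕ → ℝ) (t : ℝ), PP u X (y t + 2 * Real.pi * a / Real.log T / 2) =
        PP u X (t + (2 * Real.pi * a / Real.log T / 2 + c'))) →
      T / 2 ≤ ∫ t in (5 / 4 * T)..(7 / 4 * T),
        |((NZ (t + 2 * Real.pi * a / Real.log T) : ℝ) - NZ t) -
          ((NZ (y t + 2 * Real.pi * a / Real.log T) : ℝ) - NZ (y t))| := by
  obtain ⟨ℓ, C, T0, hℓ, hC, hT0, hcomb⟩ := comb 1 le_rfl
  obtain ⟨Co, hCo, hco⟩ := co RH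
  have hℓ0 : 0 < ℓ := by linarith
  have hpi := Real.pi_gt_three
  have hpi4 := Real.pi_lt_d2
  have hpi0 := Real.pi_pos
  set ϑ : ℝ := 1 / (1000 * ℓ) with hϑ
  have hϑ0 : 0 < ϑ := by positivity
  have hϑℓ : ϑ * ℓ ≤ 1 / 1000 := by
    rw [hϑ]
    apply le_of_eq
    field_simp
  have hϑ8 : ϑ ≤ 1 / 64 := by
    rw [hϑ]
    exact one_div_le_one_div_of_le (by norm_num) (by linarith)
  have hlogϑ : 0 ≤ Real.log (1 / ϑ) := by
    apply Real.log_nonneg
    rw [le_div_iff₀ hϑ0]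
    linarith
  set D : ℝ := C * (1 + Real.log (1 / ϑ)) with hD
  have hD0 : 0 < D := by positivity
  set r : ℝ := 30 * (D + 1) + 2 * ℓ + 10 * (Co + 2) with hr
  have hr30 : 30 * (D + 1) ≤ r := by rw [hr]; linarith
  have hr2 : 2 * ℓ ≤ r := by rw [hr]; linarith
  have hrC : 10 * (Co + 2) ≤ r := by rw [hr]; linarith
  have hr1 : 4 ≤ r := by linarith
  have hr0 : 0 < r := by linarith
  have hrr : r * 1 ≤ r * r := mul_le_mul_of_nonneg_left (by linarith) hr0.le
  have hrD : (30 * (D + 1)) * 30 ≤ r * r := mul_le_mul hr30 (by linarith) (by norm_num) hr0.le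
  have hrCC : (10 * (Co + 2)) * 20 ≤ r * r := mul_le_mul hrC (by linarith) (by norm_num) hr0.le
  have hr22 : r ^ 2 = r * r := by ring
  set a : ℝ := Real.exp (Real.pi ^ 2 / 2 * (r ^ 2 + D + 1)) with ha
  have hloga : 2 / Real.pi ^ 2 * Real.log a = r ^ 2 + D + 1 := by
    rw [ha, Real.log_exp]
    field_simp
  have haℓ : 2 * ℓ ≤ a := by
    have h1 := Real.add_one_le_exp (Real.pi ^ 2 / 2 * (r ^ 2 + D + 1))
    rw [← ha] at h1
    have h2 : 1 * (r ^ 2 + D + 1) ≤ Real.pi ^ 2 / 2 * (r ^ 2 + D + 1) := by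
      apply mul_le_mul_of_nonneg_right _ (by positivity)
      nlinarith
    linarith
  have ha32 : 32 ≤ a := by linarith
  have ha0 : 0 < a := by linarith
  obtain ⟨T1, hT1, hco1⟩ := hco (2 * Real.pi * a) ϑ (by positivity) hϑ0 (by linarith)
  have hth : Tendsto (fun T : ℝ => 2 * Real.pi * a / Real.log T) atTop (𝓝 0) :=
    Real.tendsto_log_atTop.const_div_atTop _
  have hlo : ∀ K : ℝ, ∀ᶠ T : ℝ in atTop, Real.log T + K ≤ T / 16 := by
    intro K
    have h1 : (fun T : ℝ => Real.log T + K) =o[atTop] fun T : ℝ => T :=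
      Real.isLittleO_log_id_atTop.add (Asymptotics.isLittleO_const_id_atTop _)
    have h2 := h1.bound (c := 1 / 16) (by norm_num)
    filter_upwards [h2, eventually_ge_atTop 1] with T hT hT1
    rw [Real.norm_of_nonneg (by linarith : (0 : ℝ) ≤ T)] at hT
    have := (le_abs_self _).trans hT
    linarith
  have hp38 : ∀ᶠ T : ℝ in atTop, 96 * T ^ (3 / 8 : ℝ) ≤ T := by
    filter_upwards [(tendsto_rpow_atTop (show (0 : ℝ) < 5 / 8 by norm_num)).eventually_ge_atTop 96,
      eventually_ge_atTop 1] with T hT hT1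
    have h1 : T ^ (5 / 8 : ℝ) * T ^ (3 / 8 : ℝ) = T := by
      rw [← Real.rpow_add (by linarith)]
      norm_num
    have h2 := mul_le_mul_of_nonneg_right hT (show 0 ≤ T ^ (3 / 8 : ℝ) by positivity)
    linarith
  have hgl : ∀ᶠ T : ℝ in atTop, 48 * (Real.sqrt T * (1 + Real.log T)) ≤ T / 16 := by
    have h1 : (fun T : ℝ => 1 + Real.log T) =o[atTop] fun T : ℝ => T ^ (1 / 2 : ℝ) := by
      refine (Asymptotics.isLittleO_const_left.2 (Or.inr ?_)).add
        (isLittleO_log_rpow_atTop (by norm_num))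
      exact tendsto_norm_atTop_atTop.comp (tendsto_rpow_atTop (by norm_num))
    have h2 := h1.bound (c := 1 / 768) (by norm_num)
    filter_upwards [h2, eventually_ge_atTop 1] with T hT hT1
    rw [Real.norm_of_nonneg (by positivity : (0 : ℝ) ≤ T ^ (1 / 2 : ℝ)), ← Real.sqrt_eq_rpow] at hT
    have h3 := (le_abs_self _).trans hT
    have h4 := Real.mul_self_sqrt (show 0 ≤ T by linarith)
    have h5 := Real.sqrt_nonneg T
    nlinarith
  have hev : ∀ᶠ T : ℝ in atTop, ∀ (y : ℝ → ℝ) (A' B' c' : ℝ), Iso T y A' B' →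
      4 * Real.pi * a / Real.log T ≤ |c'| → |c'| ≤ 4 * T →
      (∀ (X : ℕ) (u : ℕ → ℝ) (t : ℝ), PP u X (y t + 2 * Real.pi * a / Real.log T / 2) =
        PP u X (t + (2 * Real.pi * a / Real.log T / 2 + c'))) →
      T / 2 ≤ ∫ t in (5 / 4 * T)..(7 / 4 * T),
        |((NZ (t + 2 * Real.pi * a / Real.log T) : ℝ) - NZ t) -
          ((NZ (y t + 2 * Real.pi * a / Real.log T) : ℝ) - NZ (y t))| := by
    filter_upwards [eventually_ge_atTop T0, eventually_ge_atTop T1, eventually_ge_atTop (1 : ℝ),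
      hth.eventually (gt_mem_nhds (show (0 : ℝ) < 1 / 2000 by norm_num)),
      Real.tendsto_log_atTop.eventually_ge_atTop (a * Real.log a),
      Real.tendsto_log_atTop.eventually_ge_atTop (8 / ϑ), hlo 7, hp38, hgl,
      Real.tendsto_log_atTop.eventually_ge_atTop (1000 * ℓ)]
      with T hTT0 hTT1 hT1' hTh1 hTa hTϑ hT7 hT38 hTg hTℓ y A' B' c' hiso hc1 hc2 hy
    have hTpos : 0 < T := by linarith
    have hL0 : 0 < Real.log T := lt_of_lt_of_le (by positivity) hTϑ
    have hϑT : 8 ≤ ϑ * Real.log T := by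
      rw [div_le_iff₀ hϑ0] at hTϑ
      linarith
    have hcor0 := cor hℓ hϑ0 hϑℓ hT1' hTℓ (show 0 < 2 * Real.pi * a by positivity) hTh1.le hCo
      (hco1 T hTT1 c' (by
        refine le_trans (le_of_eq ?_) hc1
        ring) hc2)
    set L := Real.log T with hL
    set l := L / ℓ with hl
    have hlpos : 0 < l := by positivity
    set h := 2 * Real.pi * a / L with hh
    have hh0 : 0 < h := by positivity
    set X := XK ϑ T with hX
    set u := rc l h with hu
    -- the facts of `comb`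
    obtain ⟨i1, m1, w1⟩ := hcomb T hTT0 a (by linarith) (by linarith) ϑ hϑ0 (by linarith) hϑT
    rw [← hD] at m1 w1
    rw [← hL, ← hl, ← hh, ← hu, ← hX, hloga] at w1
    rw [← hL] at i1 m1
    have w1' := abs_le.1 w1
    -- the length
    have hXle0 : (X : ℝ) ≤ T ^ ϑ := Nat.floor_le (by positivity)
    have hXle : (X : ℝ) ≤ T ^ (1 / 8 : ℝ) :=
      hXle0.trans (Real.rpow_le_rpow_of_exponent_le hT1' (by linarith))
    have hX1 : 1 ≤ X := by
      apply Nat.le_floor
      rw [Nat.cast_one]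
      exact Real.one_le_rpow hT1' hϑ0.le
    have hX3 : 12 * (X : ℝ) ^ 3 ≤ T / 8 := by
      have h2 : (X : ℝ) ^ 3 ≤ (T ^ (1 / 8 : ℝ)) ^ 3 := pow_le_pow_left₀ (by positivity) hXle 3
      have h3 : (T ^ (1 / 8 : ℝ)) ^ 3 = T ^ (3 / 8 : ℝ) := by
        rw [← Real.rpow_natCast, ← Real.rpow_mul hTpos.le]
        norm_num
      rw [h3] at h2
      linarith
    have hX4 : ((X ^ 4 : ℕ) : ℝ) ≤ Real.sqrt T := by
      push_cast
      have h2 : (X : ℝ) ^ 4 ≤ (T ^ (1 / 8 : ℝ)) ^ 4 := pow_le_pow_left₀ (by positivity) hXle 4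
      have h3 : (T ^ (1 / 8 : ℝ)) ^ 4 = Real.sqrt T := by
        rw [← Real.rpow_natCast, ← Real.rpow_mul hTpos.le, Real.sqrt_eq_rpow]
        norm_num
      rw [h3] at h2
      exact h2
    have hub : ∀ n, |u n| ≤ 1 := fun n => by
      have := rc_bd hlpos h n
      exact abs_le_of_sq_le_sq (by rw [one_pow]; exact this) (by norm_num)
    have hAB : 5 / 4 * T ≤ 7 / 4 * T := by linarith
    -- the correlation
    have hcr' : |∫ t in (5 / 4 * T)..(7 / 4 * T), PP u X (t + h / 2) * PP u X (t + (h / 2 + c'))| ≤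
        T / 4 * (VS u X / 5 + r ^ 2 / 100) + T / 16 := by
      have h1 := cr2 X u u hub hub (5 / 4 * T) (7 / 4 * T) (h / 2) (h / 2 + c') hAB
      have e3 : (∫ t in (5 / 4 * T)..(7 / 4 * T), (∑ p ∈ Prm X, u p * Real.cos ((t + h / 2) *
          Real.log p)) * (∑ q ∈ Prm X, u q * Real.cos ((t + (h / 2 + c')) * Real.log q))) =
          ∫ t in (5 / 4 * T)..(7 / 4 * T), PP u X (t + h / 2) * PP u X (t + (h / 2 + c')) := by
        refine intervalIntegral.integral_congr fun t _ => ?_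
        simp only [PP]
      have e4 : ∑ p ∈ Prm X, u p * u p * Real.cos ((h / 2 - (h / 2 + c')) * Real.log p) =
          ∑ p ∈ Prm X, u p * u p * Real.cos (c' * Real.log p) := by
        refine Finset.sum_congr rfl fun p _ => ?_
        rw [show (h / 2 - (h / 2 + c')) * Real.log p = -(c' * Real.log p) by ring, Real.cos_neg]
      rw [e3, e4] at h1
      have e5 : (7 / 4 * T - 5 / 4 * T) / 2 = T / 4 := by ring
      rw [e5] at h1
      have h2 := abs_le.1 h1
      have h3 := abs_le.1 hcor0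
      have h4 : T / 4 * ∑ p ∈ Prm X, u p * u p * Real.cos (c' * Real.log p) ≤
          T / 4 * (VS u X / 5 + Co + 1) := mul_le_mul_of_nonneg_left h3.2 (by positivity)
      have h5 : T / 4 * -(VS u X / 5 + Co + 1) ≤
          T / 4 * ∑ p ∈ Prm X, u p * u p * Real.cos (c' * Real.log p) :=
        mul_le_mul_of_nonneg_left h3.1 (by positivity)
      have h6 : T / 4 * (VS u X / 5 + Co + 1) ≤ T / 4 * (VS u X / 5 + r ^ 2 / 100) :=
        mul_le_mul_of_nonneg_left (by linarith) (by positivity)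
      rw [abs_le]
      constructor
      · linarith [h2.1]
      · linarith [h2.2]
    have hdet := det3 cr2 (V1 := r ^ 2 + 2 * D + 2) hT1' hX1 hX3 hX4 hTg hub hr1
      (by linarith) (by linarith [w1'.1]) (by linarith [w1'.2]) hcr'
    -- the errors
    have N1i : IntervalIntegrable (fun t => ((NZ (t + h) : ℝ) - NZ t)) volume
        (5 / 4 * T) (7 / 4 * T) := by
      have h2 := NZ_ii 0 (5 / 4 * T) (7 / 4 * T)
      simp only [add_zero] at h2
      exact (NZ_ii h _ _).sub h2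
    have N2i' : IntervalIntegrable (fun t => ((NZ (t + h) : ℝ) - NZ t)) volume A' B' := by
      have h2 := NZ_ii 0 A' B'
      simp only [add_zero] at h2
      exact (NZ_ii h _ _).sub h2
    have N2i : IntervalIntegrable (fun t => ((NZ (y t + h) : ℝ) - NZ (y t))) volume
        (5 / 4 * T) (7 / 4 * T) := hiso.ii (fun t => ((NZ (t + h) : ℝ) - NZ t)) N2i'
    have hPu := PP_cont u X
    have eN1 : ∀ t, er ℓ ϑ T a t = ((NZ (t + h) : ℝ) - NZ t) - a + PP u X (t + h / 2) := by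
      intro t
      have := er_eq ℓ ϑ T a t
      rw [← hL, ← hl, ← hh, ← hu, ← hX] at this
      linarith
    have P1i : IntervalIntegrable (fun t => PP u X (t + h / 2)) volume (5 / 4 * T) (7 / 4 * T) :=
      Continuous.intervalIntegrable (by fun_prop) _ _
    have P2i : IntervalIntegrable (fun t => PP u X (t + (h / 2 + c'))) volume
        (5 / 4 * T) (7 / 4 * T) := Continuous.intervalIntegrable (by fun_prop) _ _
    have Ei : ∀ A B : ℝ, IntervalIntegrable (fun t => |er ℓ ϑ T a t|) volume A B := by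
      intro A B
      have : (fun t => |er ℓ ϑ T a t|) = fun t => |((NZ (t + h) : ℝ) - NZ t) - a + PP u X (t + h / 2)| := by
        funext t; rw [eN1]
      rw [this]
      have h2 := NZ_ii 0 A B
      simp only [add_zero] at h2
      exact ((((NZ_ii h _ _).sub h2).sub (continuous_const.intervalIntegrable _ _)).add
        (Continuous.intervalIntegrable (by fun_prop) _ _)).abs
    have E1i := Ei (5 / 4 * T) (7 / 4 * T)
    have E2i : IntervalIntegrable (fun t => |er ℓ ϑ T a (y t)|) volume (5 / 4 * T) (7 / 4 * T) :=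
      hiso.ii (fun t => |er ℓ ϑ T a t|) (Ei A' B')
    have B1 : ∫ t in (5 / 4 * T)..(7 / 4 * T), |er ℓ ϑ T a t| ≤ (D * T + T / 2) / 2 := by
      have := abs_int_le (A0 := T + L) (B0 := 2 * T - L - 7) (A := 5 / 4 * T) (B := 7 / 4 * T)
        (by linarith) (by linarith) (by linarith) i1 E1i m1
      linarith
    have B2 : ∫ t in (5 / 4 * T)..(7 / 4 * T), |er ℓ ϑ T a (y t)| ≤ (D * T + T / 2) / 2 := by
      have h0 := hiso.int (fun t => |er ℓ ϑ T a t|)
      have h1 := abs_int_le (A := A') (B := B') (A0 := T + L) (B0 := 2 * T - L - 7)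
        (by linarith [hiso.len]) (by linarith [hiso.lo]) (by linarith [hiso.hi]) i1 (Ei A' B') m1
      rw [h0]
      rw [hiso.len] at h1
      exact h1
    -- the conclusion
    have hfin : ∫ t in (5 / 4 * T)..(7 / 4 * T), (|PP u X (t + h / 2) - PP u X (t + (h / 2 + c'))| -
        |er ℓ ϑ T a t| - |er ℓ ϑ T a (y t)|) ≤
        ∫ t in (5 / 4 * T)..(7 / 4 * T), |((NZ (t + h) : ℝ) - NZ t) -
            ((NZ (y t + h) : ℝ) - NZ (y t))| := by
      refine intervalIntegral.integral_mono_on hAB ?_ ((N1i.sub N2i).abs) fun t _ => ?_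
      · exact (((P1i.sub P2i).abs).sub E1i).sub E2i
      · have h1 := eN1 t
        have h2 := eN1 (y t)
        rw [hy X u t] at h2
        have h3 : PP u X (t + h / 2) - PP u X (t + (h / 2 + c')) =
            er ℓ ϑ T a t - er ℓ ϑ T a (y t) - (((NZ (t + h) : ℝ) - NZ t) -
              ((NZ (y t + h) : ℝ) - NZ (y t))) := by
          rw [h1, h2]; ring
        rw [h3]
        have h4 := abs_sub (er ℓ ϑ T a t - er ℓ ϑ T a (y t)) (((NZ (t + h) : ℝ) - NZ t) -
              ((NZ (y t + h) : ℝ) - NZ (y t)))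
        have h5 := abs_sub (er ℓ ϑ T a t) (er ℓ ϑ T a (y t))
        linarith
    rw [intervalIntegral.integral_sub (((P1i.sub P2i).abs).sub E1i) E2i,
      intervalIntegral.integral_sub ((P1i.sub P2i).abs) E1i] at hfin
    refine le_trans ?_ hfin
    have hfin2 : T / 2 * (r / 10) - (D * T + T / 2) / 2 - (D * T + T / 2) / 2 ≤
        (∫ t in (5 / 4 * T)..(7 / 4 * T), |PP u X (t + h / 2) - PP u X (t + (h / 2 + c'))|) -
        (∫ t in (5 / 4 * T)..(7 / 4 * T), |er ℓ ϑ T a t|) -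
        ∫ t in (5 / 4 * T)..(7 / 4 * T), |er ℓ ϑ T a (y t)| := by linarith
    refine le_trans ?_ hfin2
    have h6 : T * (30 * (D + 1)) ≤ T * r := mul_le_mul_of_nonneg_left hr30 hTpos.le
    have h7 : 0 ≤ D * T := by positivity
    linarith
  obtain ⟨T2, hT2⟩ := hev.exists_forall_of_atTop
  exact ⟨a, max T2 10, by linarith, le_max_right _ _,
    fun T hT => hT2 T ((le_max_left _ _).trans hT)⟩

end Pool.Agent.Y743.SD
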