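import Pool.Agent.Y743.SD.Stm
import Pool.Agent.Y743.AF.Core

/-! Project SD: lower bound for the mean of `|P (t + b) - P (t + d)|`. -/

set_option autoImplicit false

namespace Pool.Agent.Y743.SD

open Complex Filter Topology MeasureTheory Set
open Pool.Agent.TH850.UV
open SG (NZ)
open Pool.Agent.Y743.AF (Prm PP PP_cont S_CR2 VS_eq' m4 sub_int l1_low er_eq abs_int_le rc_abs_le
  rc_abs_le' rc_prime_le mem_Prm Wp Wp_nonneg dev_sum)
open Pool.Agent.Y743.CL (G rc VS XK rc_bd VS_nonneg comb er er_meas)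

/-- the deterministic part -/
theorem det3 (cr2 : S_CR2) {T r V1 b d : ℝ} {X : ℕ} {u : ℕ → ℝ} (hT : 1 ≤ T) (hX : 1 ≤ X)
    (hX3 : 12 * (X : ℝ) ^ 3 ≤ T / 8) (hX4 : ((X ^ 4 : ℕ) : ℝ) ≤ Real.sqrt T)
    (hg : 48 * (Real.sqrt T * (1 + Real.log T)) ≤ T / 16) (hu : ∀ n, |u n| ≤ 1)
    (hr : 4 ≤ r) (hV1 : V1 ≤ 11 / 10 * r ^ 2) (hu1 : r ^ 2 ≤ VS u X) (hu2 : VS u X ≤ V1)
    (hcr : |∫ t in (5 / 4 * T)..(7 / 4 * T), PP u X (t + b) * PP u X (t + d)| ≤
      T / 4 * (VS u X / 5 + r ^ 2 / 100) + T / 16) :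
    T / 2 * (r / 10) ≤ ∫ t in (5 / 4 * T)..(7 / 4 * T), |PP u X (t + b) - PP u X (t + d)| := by
  have hT0 : 0 < T := by linarith
  have hAB : 5 / 4 * T ≤ 7 / 4 * T := by linarith
  have hPu := PP_cont u X
  have hX0 : 0 ≤ (X : ℝ) ^ 3 := by positivity
  have c0 : ∀ w : ℕ → ℝ, ∑ p ∈ Prm X, w p * w p * Real.cos (0 * Real.log p) = VS w X := by
    intro w
    rw [VS_eq']
    refine Finset.sum_congr rfl fun p _ => ?_
    rw [zero_mul, Real.cos_zero]; ring
  -- second moments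
  have q1 : ∀ b : ℝ, T / 4 * VS u X - 4 * (X : ℝ) ^ 3 ≤
      ∫ t in (5 / 4 * T)..(7 / 4 * T), PP u X (t + b) ^ 2 := by
    intro b
    have h1 := cr2 X u u hu hu (5 / 4 * T) (7 / 4 * T) b b hAB
    rw [sub_self, c0] at h1
    have h2 := (abs_le.1 h1).1
    have h3 : (∫ t in (5 / 4 * T)..(7 / 4 * T), (∑ p ∈ Prm X, u p * Real.cos ((t + b) * Real.log p)) *
        (∑ q ∈ Prm X, u q * Real.cos ((t + b) * Real.log q))) =
        ∫ t in (5 / 4 * T)..(7 / 4 * T), PP u X (t + b) ^ 2 := by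
      refine intervalIntegral.integral_congr fun t _ => ?_
      simp only [PP]; ring
    rw [h3] at h2
    have h4 : (7 / 4 * T - 5 / 4 * T) / 2 * VS u X = T / 4 * VS u X := by ring
    linarith
  -- fourth moments
  have hlog : 0 ≤ Real.log T := Real.log_nonneg hT
  have hS0 : 0 ≤ Real.sqrt T * (1 + Real.log T) := by positivity
  have hVu := VS_nonneg u X
  have hVu2 : VS u X ^ 2 ≤ V1 ^ 2 := pow_le_pow_left₀ hVu hu2 2
  have q3 : ∀ b : ℝ, ∫ t in (5 / 4 * T)..(7 / 4 * T), PP u X (t + b) ^ 4 ≤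
      T * V1 ^ 2 + 16 * (Real.sqrt T * (1 + Real.log T)) * V1 ^ 2 := by
    intro b
    have h0 := sub_int (fun s => PP u X s ^ 4) one_pos (5 / 4 * T) (7 / 4 * T) b
    simp only [div_one, one_mul] at h0
    rw [h0]
    refine (m4 u X hX T _ _ hT (by linarith) hX4).trans ?_
    have e : (7 / 4 * T + b - (5 / 4 * T + b)) * (2 * VS u X ^ 2) = T * VS u X ^ 2 := by ring
    rw [e]
    exact add_le_add (mul_le_mul_of_nonneg_left hVu2 hT0.le)
      (mul_le_mul_of_nonneg_left hVu2 (by positivity))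
  -- the difference
  set f : ℝ → ℝ := fun t => PP u X (t + b) - PP u X (t + d) with hf
  have hfc : Continuous f := by
    simp only [hf]; fun_prop
  have i1 : ∀ b : ℝ, IntervalIntegrable (fun t => PP u X (t + b) ^ 2) volume (5 / 4 * T) (7 / 4 * T) :=
    fun b => Continuous.intervalIntegrable (by fun_prop) _ _
  have i3 : IntervalIntegrable (fun t => PP u X (t + b) * PP u X (t + d)) volume
      (5 / 4 * T) (7 / 4 * T) := Continuous.intervalIntegrable (by fun_prop) _ _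
  have i4 : ∀ b : ℝ, IntervalIntegrable (fun t => PP u X (t + b) ^ 4) volume (5 / 4 * T) (7 / 4 * T) :=
    fun b => Continuous.intervalIntegrable (by fun_prop) _ _
  have s2 : T / 2 * (3 / 4 * r ^ 2) ≤ ∫ t in (5 / 4 * T)..(7 / 4 * T), f t ^ 2 := by
    have e : ∫ t in (5 / 4 * T)..(7 / 4 * T), f t ^ 2 =
        (∫ t in (5 / 4 * T)..(7 / 4 * T), PP u X (t + b) ^ 2) +
        (∫ t in (5 / 4 * T)..(7 / 4 * T), PP u X (t + d) ^ 2) -
        2 * ∫ t in (5 / 4 * T)..(7 / 4 * T), PP u X (t + b) * PP u X (t + d) := by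
      rw [← intervalIntegral.integral_const_mul, ← intervalIntegral.integral_add (i1 b) (i1 d),
        ← intervalIntegral.integral_sub ((i1 b).add (i1 d)) (i3.const_mul 2)]
      refine intervalIntegral.integral_congr fun t _ => ?_
      simp only [hf]; ring
    rw [e]
    have h1 := (abs_le.1 hcr).2
    have hr16 : 16 ≤ r ^ 2 := by
      have := pow_le_pow_left₀ (by norm_num) hr 2
      linarith
    have h3 : T * r ^ 2 ≤ T * VS u X := mul_le_mul_of_nonneg_left hu1 hT0.le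
    have h4 : T * 16 ≤ T * r ^ 2 := mul_le_mul_of_nonneg_left hr16 hT0.le
    have h5 := q1 b
    have h6 := q1 d
    linarith
  have s4 : ∫ t in (5 / 4 * T)..(7 / 4 * T), f t ^ 4 ≤ T / 2 * (40 * (r ^ 2) ^ 2) := by
    have h1 : ∫ t in (5 / 4 * T)..(7 / 4 * T), f t ^ 4 ≤ ∫ t in (5 / 4 * T)..(7 / 4 * T),
        8 * (PP u X (t + b) ^ 4 + PP u X (t + d) ^ 4) := by
      refine intervalIntegral.integral_mono_on hAB (Continuous.intervalIntegrable (by fun_prop) _ _)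
        (((i4 b).add (i4 d)).const_mul 8) fun t _ => ?_
      simp only [hf]
      set x := PP u X (t + b)
      set y := PP u X (t + d)
      have k1 : (x - y) ^ 2 ≤ 2 * (x ^ 2 + y ^ 2) := by nlinarith [sq_nonneg (x + y)]
      have k2 : ((x - y) ^ 2) ^ 2 ≤ (2 * (x ^ 2 + y ^ 2)) ^ 2 := pow_le_pow_left₀ (sq_nonneg _) k1 2
      nlinarith [sq_nonneg (x ^ 2 - y ^ 2)]
    rw [intervalIntegral.integral_const_mul, intervalIntegral.integral_add (i4 b) (i4 d)] at h1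
    have h2 : 48 * (Real.sqrt T * (1 + Real.log T)) * V1 ^ 2 ≤ T / 16 * V1 ^ 2 :=
      mul_le_mul_of_nonneg_right hg (sq_nonneg _)
    have hV0 : 0 ≤ V1 := hVu.trans hu2
    have h3 : V1 ^ 2 ≤ (11 / 10 * r ^ 2) ^ 2 := pow_le_pow_left₀ hV0 hV1 2
    have h4 : 8 * (33 / 16 * T * V1 ^ 2) ≤ 8 * (33 / 16 * T * (11 / 10 * r ^ 2) ^ 2) := by
      apply mul_le_mul_of_nonneg_left _ (by norm_num)
      exact mul_le_mul_of_nonneg_left h3 (by positivity)
    have h5 : 8 * (33 / 16 * T * (11 / 10 * r ^ 2) ^ 2) ≤ T / 2 * (40 * (r ^ 2) ^ 2) := by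
      have : 0 ≤ T * (r ^ 2) ^ 2 := by positivity
      linarith
    have h6 := q3 b
    have h7 := q3 d
    have h8 : 0 ≤ (Real.sqrt T * (1 + Real.log T)) * V1 ^ 2 := by positivity
    linarith
  have hs := l1_low hfc hAB (show 0 < 8 * r by linarith)
  refine le_trans ?_ hs
  have r0 : 0 < r := by linarith
  have h1 : 3 / (2 * (8 * r)) * (T / 2 * (3 / 4 * r ^ 2)) ≤
      3 / (2 * (8 * r)) * ∫ t in (5 / 4 * T)..(7 / 4 * T), f t ^ 2 :=
    mul_le_mul_of_nonneg_left s2 (by positivity)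
  have h2 : 1 / (2 * (8 * r) ^ 3) * (∫ t in (5 / 4 * T)..(7 / 4 * T), f t ^ 4) ≤
      1 / (2 * (8 * r) ^ 3) * (T / 2 * (40 * (r ^ 2) ^ 2)) :=
    mul_le_mul_of_nonneg_left s4 (by positivity)
  have h3 : 3 / (2 * (8 * r)) * (T / 2 * (3 / 4 * r ^ 2)) = T / 2 * (r * (9 / 64)) := by
    field_simp; ring
  have h4 : 1 / (2 * (8 * r) ^ 3) * (T / 2 * (40 * (r ^ 2) ^ 2)) = T / 2 * (r * (40 / 1024)) := by
    field_simp; ring
  have h5 : 0 ≤ T / 2 * r := by positivity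
  linarith

end Pool.Agent.Y743.SD
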