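import Pool.Agent.Y743.SD.Core
import Pool.Agent.Y743.CC.Fin

/-! Project SD: partial matchings of the ordinates with their translates and reflections. -/

set_option autoImplicit false

namespace Pool.Agent.Y743.SD

open Filter Topology MeasureTheory Set
open SG (NZ ord)
open Pool.Agent.Y743.AF (S_CR2 PP Prm)
open Pool.Agent.Y743.CC (S_ME mem_win card_win)

/-- the indices of the ordinates in `(T, 2T]` -/
noncomputable def SS (T : ℝ) : Finset ℕ := Finset.Ioc (NZ T) (NZ (2 * T))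

lemma mem_SS {T : ℝ} (hT : 0 ≤ T) (n : ℕ) : n ∈ SS T ↔ T < ord n ∧ ord n ≤ 2 * T := mem_win hT n

theorem fin_aux (cr2 : S_CR2) (co : S_CO) (mc : S_MC) (me : S_ME) (RH : RiemannHypothesis) :
    ∃ a κ T0 : ℝ, 1 ≤ a ∧ 0 < κ ∧ κ ≤ 1 ∧ 10 ≤ T0 ∧
    ∀ T : ℝ, T0 ≤ T → ∀ (y : ℝ → ℝ) (A' B' c' : ℝ), Iso T y A' B' →
      (∀ t ∈ Icc (5 / 4 * T) (7 / 4 * T), 0 ≤ y t) →
      4 * Real.pi * a / Real.log T ≤ |c'| → |c'| ≤ 4 * T →
      (∀ (X : ℕ) (u : ℕ → ℝ) (t : ℝ), PP u X (y t + 2 * Real.pi * a / Real.log T / 2) =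
        PP u X (t + (2 * Real.pi * a / Real.log T / 2 + c'))) →
      ∀ (G : Finset ℕ) (σ : ℕ → ℕ) (z : ℕ → ℝ), G ⊆ SS T → InjOn σ G →
        (∀ n ∈ G, |ord n - z n| ≤ κ / Real.log T) →
        (∀ n ∈ G, ∀ t, t < z n → z n < t + 2 * Real.pi * a / Real.log T →
          y t < ord (σ n) ∧ ord (σ n) ≤ y t + 2 * Real.pi * a / Real.log T) →
        κ * (T * Real.log T) ≤ ((SS T \ G).card : ℝ) := by
  classical
  obtain ⟨a, T1, ha, hT1, hcore⟩ := core3 cr2 co RH
  obtain ⟨C1, T2, hC1, hT2, hup⟩ := SP.PosProp.NZ_up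
  obtain ⟨C2, T3, hC2, hT3, hme⟩ := me
  have hpi := Real.pi_gt_three
  have hpi0 := Real.pi_pos
  set K : ℝ := 2 * (2 * C1 + 2 * Real.pi * a) + 1 with hK
  have hK0 : 0 < K := by positivity
  set κ : ℝ := min 1 (1 / (4 * K)) with hκ
  have hκ0 : 0 < κ := lt_min one_pos (by positivity)
  have hκ1 : κ ≤ 1 := min_le_left _ _
  have hκK : κ * (4 * K) ≤ 1 := by
    have := min_le_right 1 (1 / (4 * K))
    rw [← hκ, le_div_iff₀ (by positivity)] at this
    exact this
  have hev : ∀ᶠ T : ℝ in atTop, T1 ≤ T ∧ T2 ≤ T ∧ T3 ≤ T ∧ 32 ≤ T ∧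
      64 * Real.pi * a * (C2 + 1) ≤ Real.log T := by
    filter_upwards [eventually_ge_atTop T1, eventually_ge_atTop T2, eventually_ge_atTop T3,
      eventually_ge_atTop 32, Real.tendsto_log_atTop.eventually_ge_atTop _] with T h1 h2 h3 h4 h5
    exact ⟨h1, h2, h3, h4, h5⟩
  obtain ⟨T0, hT0⟩ := hev.exists_forall_of_atTop
  refine ⟨a, κ, max T0 10, ha, hκ0, hκ1, le_max_right _ _,
    fun T hT y A' B' c' hiso hy0 hc1 hc2 hy G σ z hGS hσ hz hzw => ?_⟩
  obtain ⟨hTT1, hTT2, hTT3, hT32, hTL⟩ := hT0 T ((le_max_left _ _).trans hT)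
  by_contra hcon
  push Not at hcon
  have hlow := hcore T hTT1 y A' B' c' hiso hc1 hc2 hy
  have hTpos : 0 < T := by linarith
  set L := Real.log T with hL
  have hπa : 0 < 64 * Real.pi * a := by positivity
  have hL1 : 64 * Real.pi * a ≤ L := by
    have : 64 * Real.pi * a * 1 ≤ 64 * Real.pi * a * (C2 + 1) :=
      mul_le_mul_of_nonneg_left (by linarith) hπa.le
    linarith
  have hL0 : 0 < L := by linarith
  set h : ℝ := 2 * Real.pi * a / L with hh
  have hh0 : 0 < h := by positivity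
  have hh1 : h ≤ 1 := by
    rw [hh, div_le_one hL0]; linarith
  have hκL : 0 < κ / L := by positivity
  set S := SS T with hS
  have hmemS : ∀ n, n ∈ S ↔ T < ord n ∧ ord n ≤ 2 * T := fun n => mem_SS hTpos.le n
  have hAB : 5 / 4 * T ≤ 7 / 4 * T := by linarith
  -- the matching
  set z' : ℕ → ℝ := fun n => if n ∈ G then z n else ord n + κ / L + 1 with hz'
  obtain ⟨w, hwi, hw0, hwt, hwI⟩ := mc S ord z' (5 / 4 * T) (7 / 4 * T) h (κ / L) hAB hh0.le hκL.le
  have N1i : IntervalIntegrable (fun t => ((NZ (t + h) : ℝ) - NZ t)) volume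
      (5 / 4 * T) (7 / 4 * T) := by
    have h2 := NZ_ii 0 (5 / 4 * T) (7 / 4 * T)
    simp only [add_zero] at h2
    exact (NZ_ii h _ _).sub h2
  have N2i' : IntervalIntegrable (fun t => ((NZ (t + h) : ℝ) - NZ t)) volume A' B' := by
    have h2 := NZ_ii 0 A' B'
    simp only [add_zero] at h2
    exact (NZ_ii h _ _).sub h2
  have N2i : IntervalIntegrable (fun t => ((NZ (y t + h) : ℝ) - NZ (y t))) volume
      (5 / 4 * T) (7 / 4 * T) := hiso.ii (fun t => ((NZ (t + h) : ℝ) - NZ t)) N2i'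
  -- the pointwise inequality
  have hpt : ∀ t ∈ Icc (5 / 4 * T) (7 / 4 * T), ((NZ (t + h) : ℝ) - NZ t) ≤
      ((NZ (y t + h) : ℝ) - NZ (y t)) + w t := by
    intro t ht
    have hft0 := hy0 t ht
    have ht0 : 0 ≤ t := by linarith [ht.1]
    rw [← card_win (show t ≤ t + h by linarith), ← card_win (show y t ≤ y t + h by linarith)]
    have h1 : Finset.Ioc (NZ t) (NZ (t + h)) = S.filter (fun n => t < ord n ∧ ord n ≤ t + h) := by
      ext n
      rw [Finset.mem_filter, mem_win ht0, hmemS]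
      constructor
      · intro h2
        exact ⟨⟨by linarith [ht.1], by linarith [ht.2]⟩, h2⟩
      · exact fun h2 => h2.2
    rw [h1, ← Finset.card_filter_add_card_filter_not
      (s := S.filter (fun n => t < ord n ∧ ord n ≤ t + h))
      (fun n => t < z' n ∧ z' n < t + h), Nat.cast_add]
    have hG : ∀ n ∈ (S.filter (fun n => t < ord n ∧ ord n ≤ t + h)).filter
        (fun n => t < z' n ∧ z' n < t + h), n ∈ G ∧ t < z n ∧ z n < t + h := by
      intro n hn
      rw [Finset.mem_filter, Finset.mem_filter] at hn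
      by_cases hnG : n ∈ G
      · have h2 := hn.2
        simp only [hz', if_pos hnG] at h2
        exact ⟨hnG, h2⟩
      · have h2 := hn.2
        simp only [hz', if_neg hnG] at h2
        linarith [hn.1.2.1, h2.2]
    have h2 : (((S.filter (fun n => t < ord n ∧ ord n ≤ t + h)).filter
        (fun n => t < z' n ∧ z' n < t + h)).card : ℝ) ≤
        ((Finset.Ioc (NZ (y t)) (NZ (y t + h))).card : ℝ) := by
      have h3 : ((S.filter (fun n => t < ord n ∧ ord n ≤ t + h)).filter
          (fun n => t < z' n ∧ z' n < t + h)).card ≤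
          (Finset.Ioc (NZ (y t)) (NZ (y t + h))).card := by
        refine Finset.card_le_card_of_injOn σ (fun n hn => ?_) (fun n hn m hm hnm => ?_)
        · obtain ⟨k1, k2, k3⟩ := hG n (Finset.mem_coe.1 hn)
          exact Finset.mem_coe.2 ((mem_win hft0 (σ n)).2 (hzw n k1 t k2 k3))
        · exact hσ (hG n (Finset.mem_coe.1 hn)).1 (hG m (Finset.mem_coe.1 hm)).1 hnm
      exact_mod_cast h3
    have h4 := hwt t ht
    rw [← Finset.filter_filter] at h4
    linarith
  -- the integrals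
  have hI1 : ∫ t in (5 / 4 * T)..(7 / 4 * T), |((NZ (t + h) : ℝ) - NZ t) -
      ((NZ (y t + h) : ℝ) - NZ (y t))| ≤ ∫ t in (5 / 4 * T)..(7 / 4 * T),
      (2 * w t - (((NZ (t + h) : ℝ) - NZ t) - ((NZ (y t + h) : ℝ) - NZ (y t)))) := by
    refine intervalIntegral.integral_mono_on hAB ((N1i.sub N2i).abs)
      ((hwi.const_mul 2).sub (N1i.sub N2i)) fun t ht => ?_
    have h1 := hpt t ht
    have h2 := hw0 t
    rw [abs_le]
    constructor <;> linarith
  rw [intervalIntegral.integral_sub (hwi.const_mul 2) (N1i.sub N2i),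
    intervalIntegral.integral_sub N1i N2i, intervalIntegral.integral_const_mul] at hI1
  -- the means
  have hm1 := (abs_le.1 (hme T hTT3 h hh0 hh1 (5 / 4 * T) (7 / 4 * T) (by linarith) hAB
    (by linarith))).1
  have hlen := hiso.len
  have hm2 := (abs_le.1 (hme T hTT3 h hh0 hh1 A' B' (by linarith [hiso.lo]) (by linarith)
    (by linarith [hiso.hi]))).2
  have hint := hiso.int (fun t => ((NZ (t + h) : ℝ) - NZ t))
  have hint' : ∫ t in (5 / 4 * T)..(7 / 4 * T), ((NZ (y t + h) : ℝ) - NZ (y t)) =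
      ∫ t in A'..B', ((NZ (t + h) : ℝ) - NZ t) := hint
  rw [hint'] at hI1
  rw [hlen] at hm2
  set I1 := ∫ t in (5 / 4 * T)..(7 / 4 * T), ((NZ (t + h) : ℝ) - NZ t) with hI1d
  set I3 := ∫ t in A'..B', ((NZ (t + h) : ℝ) - NZ t) with hI3d
  have hhT : h * T ≤ T / (32 * (C2 + 1)) := by
    rw [hh, div_mul_eq_mul_div, div_le_div_iff₀ hL0 (by positivity)]
    have := mul_le_mul_of_nonneg_left hTL hTpos.le
    linarith
  have hhT2 : C2 * h * T ≤ T / 32 := by
    have h1 := mul_le_mul_of_nonneg_left hhT hC2.le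
    have h2 : C2 * (T / (32 * (C2 + 1))) ≤ T / 32 := by
      rw [← mul_div_assoc, div_le_div_iff₀ (by positivity) (by norm_num)]
      linarith
    have e : C2 * h * T = C2 * (h * T) := by ring
    rw [e]; linarith
  have e1 : h * ((7 / 4 * T - 5 / 4 * T) * L / (2 * Real.pi)) = a * T / 2 := by
    rw [hh]; field_simp; ring
  have e2 : h * (T / 2 * L / (2 * Real.pi)) = a * T / 2 := by
    rw [hh]; field_simp
  rw [e1] at hm1
  rw [e2] at hm2
  have hdiff : I3 - I1 ≤ T / 16 := by linarith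
  -- the number of the indices
  have hScard : (S.card : ℝ) ≤ C1 * (T * L) := by
    rw [hS, SS, card_win (by linarith)]
    have h1 := hup T hTT2
    have h2 : (0 : ℝ) ≤ NZ T := Nat.cast_nonneg _
    linarith
  have hbad : ((S.filter (fun n => κ / L < |ord n - z' n|)).card : ℝ) ≤ κ * (T * L) := by
    refine le_trans ?_ hcon.le
    have : S.filter (fun n => κ / L < |ord n - z' n|) ⊆ S \ G := by
      intro n hn
      rw [Finset.mem_filter] at hn
      rw [Finset.mem_sdiff]
      refine ⟨hn.1, fun hnG => ?_⟩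
      have h2 := hn.2
      simp only [hz', if_pos hnG] at h2
      linarith [hz n hnG]
    exact_mod_cast Finset.card_le_card this
  have hw1 : 2 * (κ / L) * S.card ≤ κ * T * (2 * C1) := by
    calc 2 * (κ / L) * S.card ≤ 2 * (κ / L) * (C1 * (T * L)) :=
          mul_le_mul_of_nonneg_left hScard (by positivity)
      _ = κ * T * (2 * C1) := by field_simp
  have hw2 : h * ((S.filter (fun n => κ / L < |ord n - z' n|)).card : ℝ) ≤
      κ * T * (2 * Real.pi * a) := by
    calc h * ((S.filter (fun n => κ / L < |ord n - z' n|)).card : ℝ)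
        ≤ h * (κ * (T * L)) := mul_le_mul_of_nonneg_left hbad hh0.le
      _ = κ * T * (2 * Real.pi * a) := by rw [hh]; field_simp
  have hwI' : ∫ t in (5 / 4 * T)..(7 / 4 * T), w t ≤ κ * T * (2 * C1 + 2 * Real.pi * a) := by
    have e : κ * T * (2 * C1 + 2 * Real.pi * a) =
      κ * T * (2 * C1) + κ * T * (2 * Real.pi * a) := by ring
    rw [e]
    linarith
  have hKT : κ * T * K ≤ T / 4 := by
    have := mul_le_mul_of_nonneg_right hκK hTpos.le
    linarith
  have hK' : κ * T * K = 2 * (κ * T * (2 * C1 + 2 * Real.pi * a)) + κ * T := by rw [hK]; ring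
  have hκT : 0 < κ * T := by positivity
  linarith

end Pool.Agent.Y743.SD
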