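import Pool.Agent.Y743.SD.Fin

/-! Project SD: translations and reflections. -/

set_option autoImplicit false

namespace Pool.Agent.Y743.SD

open Filter Topology MeasureTheory Set
open SG (NZ ord)
open Pool.Agent.Y743.AF (S_CR2 PP Prm)
open Pool.Agent.Y743.CC (S_ME mem_win card_win)

lemma PP_neg (u : ℕ → ℝ) (X : ℕ) (x : ℝ) : PP u X (-x) = PP u X x := by
  unfold Pool.Agent.Y743.AF.PP
  refine Finset.sum_congr rfl fun p _ => ?_
  rw [neg_mul, Real.cos_neg]

/-- translations by many mean spacings, and the reflection -/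
theorem big (cr2 : S_CR2) (co : S_CO) (mc : S_MC) (me : S_ME) (RH : RiemannHypothesis) :
    ∃ a κ T0 : ℝ, 1 ≤ a ∧ 0 < κ ∧ κ ≤ 1 ∧ 10 ≤ T0 ∧ ∀ T : ℝ, T0 ≤ T →
      (∀ c : ℝ, 4 * Real.pi * a / Real.log T ≤ |c| → |c| ≤ T / 8 →
        ∀ (G : Finset ℕ) (σ : ℕ → ℕ), G ⊆ SS T → InjOn σ G →
        (∀ n ∈ G, |ord (σ n) - (ord n + c)| ≤ κ / Real.log T) →
        κ * (T * Real.log T) ≤ ((SS T \ G).card : ℝ)) ∧
      (∀ (G : Finset ℕ) (σ : ℕ → ℕ), G ⊆ SS T → InjOn σ G →
        (∀ n ∈ G, |ord (σ n) - (3 * T - ord n)| ≤ κ / Real.log T) →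
        κ * (T * Real.log T) ≤ ((SS T \ G).card : ℝ)) := by
  obtain ⟨a, κ, T1, ha, hκ, hκ1, hT1, h⟩ := fin_aux cr2 co mc me RH
  have hpi := Real.pi_gt_three
  have hpi0 := Real.pi_pos
  have hev : ∀ᶠ T : ℝ in atTop, T1 ≤ T ∧ 32 ≤ T ∧ 4 * Real.pi * a ≤ Real.log T := by
    filter_upwards [eventually_ge_atTop T1, eventually_ge_atTop 32,
      Real.tendsto_log_atTop.eventually_ge_atTop _] with T h1 h2 h3
    exact ⟨h1, h2, h3⟩
  obtain ⟨T0, hT0⟩ := hev.exists_forall_of_atTop
  refine ⟨a, κ, max T0 10, ha, hκ, hκ1, le_max_right _ _, fun T hT => ?_⟩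
  obtain ⟨hTT1, hT32, hTL⟩ := hT0 T ((le_max_left _ _).trans hT)
  have hTpos : 0 < T := by linarith
  have hπa : 0 < 4 * Real.pi * a := by positivity
  have hL0 : 0 < Real.log T := by linarith
  have hh1 : 2 * Real.pi * a / Real.log T ≤ 1 := by
    rw [div_le_one hL0]; linarith
  have hh0 : 0 < 2 * Real.pi * a / Real.log T := by positivity
  constructor
  · intro c hc1 hc2 G σ hG hσ hm
    have hc := abs_le.1 hc2
    refine h T hTT1 (fun t => t + c) (5 / 4 * T + c) (7 / 4 * T + c) c ⟨fun F => ?_, fun F hF => ?_,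
      by linarith [hc.1], by linarith [hc.2], by ring⟩ (fun t ht => by linarith [ht.1, hc.1]) hc1
      (by linarith) (fun X u t => by
        congr 1; ring) G σ (fun n => ord (σ n) - c) hG hσ (fun n hn => ?_) (fun n hn t h1 h2 => ?_)
    · exact intervalIntegral.integral_comp_add_right F c
    · have := hF.comp_add_right c
      simpa using this
    · have := hm n hn
      rw [abs_sub_comm] at this
      have e : ord n - (ord (σ n) - c) = ord n + c - ord (σ n) := by ring
      rw [e]; exact this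
    · constructor
      · show t + c < ord (σ n)
        linarith
      · show ord (σ n) ≤ t + c + _
        linarith
  · intro G σ hG hσ hm
    refine h T hTT1 (fun t => 3 * T - t - 2 * Real.pi * a / Real.log T)
      (3 * T - 2 * Real.pi * a / Real.log T - 7 / 4 * T)
      (3 * T - 2 * Real.pi * a / Real.log T - 5 / 4 * T) (-(3 * T)) ⟨fun F => ?_, fun F hF => ?_,
      by linarith, by linarith, by ring⟩ (fun t ht => by linarith [ht.2]) ?_ ?_
      (fun X u t => ?_) G σ (fun n => 3 * T - ord (σ n)) hG hσ (fun n hn => ?_)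
      (fun n hn t h1 h2 => ?_)
    · have h1 := intervalIntegral.integral_comp_sub_left (a := 5 / 4 * T) (b := 7 / 4 * T) F
        (3 * T - 2 * Real.pi * a / Real.log T)
      rw [← h1]
      refine intervalIntegral.integral_congr fun t _ => ?_
      show F (3 * T - t - 2 * Real.pi * a / Real.log T) = F (3 * T - 2 * Real.pi * a / Real.log T - t)
      congr 1; ring
    · have h1 := hF.comp_sub_left (3 * T - 2 * Real.pi * a / Real.log T)
      have e1 : 3 * T - 2 * Real.pi * a / Real.log T - (3 * T - 2 * Real.pi * a / Real.log T - 7 / 4 * T) =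
        7 / 4 * T := by ring
      have e2 : 3 * T - 2 * Real.pi * a / Real.log T - (3 * T - 2 * Real.pi * a / Real.log T - 5 / 4 * T) =
        5 / 4 * T := by ring
      rw [e1, e2] at h1
      have e3 : (fun t => F (3 * T - t - 2 * Real.pi * a / Real.log T)) =
          fun x => F (3 * T - 2 * Real.pi * a / Real.log T - x) := by
        funext t; congr 1; ring
      show IntervalIntegrable (fun t => F (3 * T - t - 2 * Real.pi * a / Real.log T)) volume _ _
      rw [e3]
      exact h1.symm
    · rw [abs_neg, abs_of_pos (by linarith)]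
      have : 4 * Real.pi * a / Real.log T ≤ 1 := by
        rw [div_le_one hL0]; exact hTL
      linarith
    · rw [abs_neg, abs_of_pos (by linarith)]
      linarith
    · have e : 3 * T - t - 2 * Real.pi * a / Real.log T + 2 * Real.pi * a / Real.log T / 2 =
        -(t + (2 * Real.pi * a / Real.log T / 2 + -(3 * T))) := by ring
      show PP u X (3 * T - t - 2 * Real.pi * a / Real.log T + 2 * Real.pi * a / Real.log T / 2) = _
      rw [e, PP_neg]
    · have := hm n hn
      have e : ord n - (3 * T - ord (σ n)) = ord (σ n) - (3 * T - ord n) := by ring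
      rw [e]; exact this
    · constructor
      · show 3 * T - t - _ < ord (σ n)
        linarith
      · show ord (σ n) ≤ 3 * T - t - _ + _
        linarith

/-- few ordinates near the end points -/
lemma bdry : ∃ C : ℝ, 0 < C ∧ ∀ T : ℝ, 10 ≤ T → ∀ D : ℝ, D ≤ 1 →
    (((SS T).filter (fun n => ord n ≤ T + D ∨ 2 * T - D < ord n)).card : ℝ) ≤ C * Real.log T := by
  classical
  obtain ⟨C, hC, h⟩ := H370.zcount H370.good_zeta
  refine ⟨3 * C, by positivity, fun T hT D hD => ?_⟩
  have hT0 : 0 < T := by linarith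
  have h1 : (SS T).filter (fun n => ord n ≤ T + D ∨ 2 * T - D < ord n) ⊆
      Finset.Ioc (NZ T) (NZ (T + 1)) ∪ Finset.Ioc (NZ (2 * T - 1)) (NZ (2 * T)) := by
    intro n hn
    rw [Finset.mem_filter, mem_SS hT0.le] at hn
    rw [Finset.mem_union, mem_win hT0.le, mem_win (by linarith)]
    rcases hn.2 with h2 | h2
    · left; exact ⟨hn.1.1, by linarith⟩
    · right; exact ⟨by linarith, hn.1.2⟩
  have h2 : (((SS T).filter (fun n => ord n ≤ T + D ∨ 2 * T - D < ord n)).card : ℝ) ≤
      ((Finset.Ioc (NZ T) (NZ (T + 1))).card : ℝ) +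
      ((Finset.Ioc (NZ (2 * T - 1)) (NZ (2 * T))).card : ℝ) := by
    exact_mod_cast (Finset.card_le_card h1).trans (Finset.card_union_le _ _)
  rw [card_win (by linarith), card_win (by linarith)] at h2
  have h3 : (NZ (T + 1) : ℝ) ≤ NZ T + C * Real.log T := by
    have k1 := SG.NZ_le_add T (T + 1) (by linarith)
    have k2 := h T (by linarith)
    have k3 := SG.NZ_le_add (T - 1) (T + 1) (by linarith)
    have k4 := SG.NZ_mono (show T - 1 ≤ T by linarith)
    have k5 : (NZ (T + 1) : ℝ) ≤ NZ (T - 1) + H370.NN riemannZeta (T - 1) (T + 1) := by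
      exact_mod_cast k3
    have k6 : (NZ (T - 1) : ℝ) ≤ NZ T := by exact_mod_cast k4
    linarith
  have h4 : (NZ (2 * T) : ℝ) ≤ NZ (2 * T - 1) + 2 * C * Real.log T := by
    have k2 := h (2 * T - 1) (by linarith)
    have k3 := SG.NZ_le_add (2 * T - 1 - 1) (2 * T - 1 + 1) (by linarith)
    have k4 := SG.NZ_mono (show 2 * T - 1 - 1 ≤ 2 * T - 1 by linarith)
    rw [show 2 * T - 1 + 1 = 2 * T by ring] at k2 k3
    have k5 : (NZ (2 * T) : ℝ) ≤ NZ (2 * T - 1 - 1) + H370.NN riemannZeta (2 * T - 1 - 1) (2 * T) := by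
      exact_mod_cast k3
    have k6 : (NZ (2 * T - 1 - 1) : ℝ) ≤ NZ (2 * T - 1) := by exact_mod_cast k4
    have k7 : Real.log (2 * T - 1) ≤ 2 * Real.log T := by
      have : Real.log (2 * T - 1) ≤ Real.log (T * T) := by
        apply Real.log_le_log (by linarith)
        nlinarith
      rw [Real.log_mul hT0.ne' hT0.ne'] at this
      linarith
    have k8 := mul_le_mul_of_nonneg_left k7 hC.le
    linarith
  linarith

theorem transl (cr2 : S_CR2) (co : S_CO) (mc : S_MC) (me : S_ME) (it : S_IT)
    (RH : RiemannHypothesis) (M : ℝ) (hM : 0 < M) :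
    ∃ κ T0 : ℝ, 0 < κ ∧ 10 ≤ T0 ∧ ∀ T : ℝ, T0 ≤ T →
      (∀ c : ℝ, 1 ≤ M * (|c| * Real.log T) → |c| ≤ T / 8 →
        ∀ (G : Finset ℕ) (σ : ℕ → ℕ), G ⊆ SS T → InjOn σ G →
        (∀ n ∈ G, |ord (σ n) - (ord n + c)| ≤ κ / Real.log T) →
        κ * (T * Real.log T) ≤ ((SS T \ G).card : ℝ)) ∧
      (∀ (G : Finset ℕ) (σ : ℕ → ℕ), G ⊆ SS T → InjOn σ G →
        (∀ n ∈ G, |ord (σ n) - (3 * T - ord n)| ≤ κ / Real.log T) →
        κ * (T * Real.log T) ≤ ((SS T \ G).card : ℝ)) := by
  classical
  obtain ⟨a, κ0, T1, ha, hκ0, hκ01, hT1, h⟩ := big cr2 co mc me RH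
  obtain ⟨Cb, hCb, hb⟩ := bdry
  have hpi := Real.pi_gt_three
  have hpi0 := Real.pi_pos
  set J : ℕ := ⌈4 * Real.pi * a * M⌉₊ + 1 with hJ
  have hJ1 : (1 : ℝ) ≤ J := by
    have : 1 ≤ J := by omega
    exact_mod_cast this
  set κ : ℝ := κ0 / (2 * J) with hκ
  have hκp : 0 < κ := by positivity
  have hκJ : κ * J = κ0 / 2 := by rw [hκ]; field_simp
  have hκle : κ ≤ κ0 / 2 := by
    have := mul_le_mul_of_nonneg_left hJ1 hκp.le
    linarith
  have hev : ∀ᶠ T : ℝ in atTop, T1 ≤ T ∧ 10 ≤ T ∧ 8 * Real.pi * a + 1 ≤ Real.log T ∧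
      2 * Cb / κ0 ≤ T := by
    filter_upwards [eventually_ge_atTop T1, eventually_ge_atTop 10,
      Real.tendsto_log_atTop.eventually_ge_atTop _, eventually_ge_atTop _] with T h1 h2 h3 h4
    exact ⟨h1, h2, h3, h4⟩
  obtain ⟨T0, hT0⟩ := hev.exists_forall_of_atTop
  refine ⟨κ, max T0 10, hκp, le_max_right _ _, fun T hT => ?_⟩
  obtain ⟨hTT1, hT10, hTL, hTC⟩ := hT0 T ((le_max_left _ _).trans hT)
  have hTpos : 0 < T := by linarith
  have hπa : 0 < 8 * Real.pi * a := by positivity
  have hL0 : 0 < Real.log T := by linarith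
  have hTL0 : 0 < T * Real.log T := by positivity
  obtain ⟨hbig, hrefl⟩ := h T hTT1
  have hw : κ / Real.log T ≤ κ0 / Real.log T :=
    div_le_div_of_nonneg_right (by linarith) hL0.le
  refine ⟨fun c hc1 hc2 G σ hG hσ hm => ?_, fun G σ hG hσ hm => ?_⟩
  · rcases le_or_gt (4 * Real.pi * a / Real.log T) |c| with hc | hc
    · have h1 := hbig c hc hc2 G σ hG hσ (fun n hn => (hm n hn).trans hw)
      have h2 : κ * (T * Real.log T) ≤ κ0 * (T * Real.log T) :=
        mul_le_mul_of_nonneg_right (by linarith) hTL0.le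
      linarith
    · have hcpos : 0 < |c| := by
        rcases (abs_nonneg c).lt_or_eq with h1 | h1
        · exact h1
        · rw [← h1] at hc1; linarith
      have hcL : 0 < |c| * Real.log T := by positivity
      set j : ℕ := ⌈4 * Real.pi * a / (|c| * Real.log T)⌉₊ with hj
      have hq1 : 1 < 4 * Real.pi * a / (|c| * Real.log T) := by
        rw [lt_div_iff₀ hcL, one_mul]
        rw [lt_div_iff₀ hL0] at hc
        exact hc
      have hj1 : 4 * Real.pi * a / (|c| * Real.log T) ≤ j := Nat.le_ceil _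
      have hj2 : (j : ℝ) < 4 * Real.pi * a / (|c| * Real.log T) + 1 :=
        Nat.ceil_lt_add_one (by linarith)
      have hj0 : 1 ≤ j := by
        have : (0 : ℝ) < j := by linarith
        exact_mod_cast this
      have hjJ : (j : ℝ) ≤ J := by
        have h1 : 4 * Real.pi * a / (|c| * Real.log T) ≤ 4 * Real.pi * a * M := by
          rw [div_le_iff₀ hcL]
          have := mul_le_mul_of_nonneg_left hc1 (show 0 ≤ 4 * Real.pi * a by positivity)
          linarith
        have h2 : j ≤ ⌈4 * Real.pi * a * M⌉₊ := Nat.ceil_mono h1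
        have h3 : j ≤ J := by omega
        exact_mod_cast h3
      -- the size of the translation
      have hjc1 : 4 * Real.pi * a / Real.log T ≤ j * |c| := by
        rw [div_le_iff₀ hL0]
        rw [div_le_iff₀ hcL] at hj1
        linarith
      have hjc2 : j * |c| ≤ 8 * Real.pi * a / Real.log T := by
        have h1 : (4 * Real.pi * a / (|c| * Real.log T) + 1) * |c| =
            4 * Real.pi * a / Real.log T + |c| := by field_simp
        have h2 := mul_le_mul_of_nonneg_right hj2.le hcpos.le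
        rw [h1] at h2
        have h3 : 8 * Real.pi * a / Real.log T = 4 * Real.pi * a / Real.log T +
          4 * Real.pi * a / Real.log T := by ring
        rw [h3]
        linarith
      have hjw : (j : ℝ) * (κ / Real.log T) ≤ κ0 / Real.log T := by
        rw [← mul_div_assoc]
        apply div_le_div_of_nonneg_right _ hL0.le
        have := mul_le_mul_of_nonneg_left hjJ hκp.le
        linarith
      have hκ0L : κ0 / Real.log T ≤ 1 / Real.log T := div_le_div_of_nonneg_right hκ01 hL0.le
      have hD : (j : ℝ) * (|c| + κ / Real.log T) ≤ 1 := by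
        have h1 : 8 * Real.pi * a / Real.log T + 1 / Real.log T ≤ 1 := by
          rw [← add_div, div_le_one hL0]; exact hTL
        rw [mul_add]
        linarith
      obtain ⟨G', σ', hG', hσ', hm', hcard⟩ := it (SS T) ord T c (κ / Real.log T) (by positivity)
        (fun n => mem_SS hTpos.le n) G σ hG hσ hm j hj0
      have h1 := hbig (j * c) (by rw [abs_mul, Nat.abs_cast]; exact hjc1) (by
          rw [abs_mul, Nat.abs_cast]
          have h2 : 8 * Real.pi * a / Real.log T ≤ 1 := by
            rw [div_le_one hL0]; linarith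
          linarith) G' σ' hG' hσ' (fun n hn => (hm' n hn).trans hjw)
      have h2 := hb T hT10 _ hD
      have h3 : ((SS T \ G').card : ℝ) ≤ j * ((SS T \ G).card : ℝ) +
          (((SS T).filter (fun n => ord n ≤ T + j * (|c| + κ / Real.log T) ∨
            2 * T - j * (|c| + κ / Real.log T) < ord n)).card : ℝ) := by exact_mod_cast hcard
      have h4 : Cb * Real.log T ≤ κ0 / 2 * (T * Real.log T) := by
        rw [div_le_iff₀ hκ0] at hTC
        have := mul_le_mul_of_nonneg_right hTC hL0.le
        linarith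
      have h5 : κ0 / 2 * (T * Real.log T) ≤ j * ((SS T \ G).card : ℝ) := by linarith
      have h6 : (j : ℝ) * ((SS T \ G).card : ℝ) ≤ J * ((SS T \ G).card : ℝ) :=
        mul_le_mul_of_nonneg_right hjJ (Nat.cast_nonneg _)
      have h7 : J * (κ * (T * Real.log T)) ≤ J * ((SS T \ G).card : ℝ) := by
        have e : J * (κ * (T * Real.log T)) = κ * J * (T * Real.log T) := by ring
        rw [e, hκJ]
        linarith
      exact le_of_mul_le_mul_left h7 (by linarith)
  · have h1 := hrefl G σ hG hσ (fun n hn => (hm n hn).trans hw)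
    have h2 : κ * (T * Real.log T) ≤ κ0 * (T * Real.log T) :=
      mul_le_mul_of_nonneg_right (by linarith) hTL0.le
    linarith

end Pool.Agent.Y743.SD
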