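import Pool.Agent.Y743.SD.Main
import Pool.Agent.Y743.AF.Sets

/-! Project SD: the exact versions for the set of the ordinates. -/

set_option autoImplicit false

namespace Pool.Agent.Y743.SD

open Filter Topology MeasureTheory Set
open SG (NZ ord)
open Pool.Agent.Y743.AF (Om exists_ord)
open Pool.Agent.Y743.CC (mem_win card_win)

lemma exact_match {T : ℝ} (hT : 0 < T) (g : ℝ → ℝ) (hg : Function.Injective g) :
    ∃ (G : Finset ℕ) (σ : ℕ → ℕ), G ⊆ SS T ∧ InjOn σ G ∧ (∀ n ∈ G, ord (σ n) = g (ord n)) ∧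
      ({x : ℝ | x ∈ Om ∧ T < x ∧ x ≤ 2 * T ∧ g x ∈ Om}).ncard = G.card := by
  classical
  choose! ι hι1 hι2 using fun (x : ℝ) (hx : x ∈ Om) => exists_ord hx
  set A : Set ℝ := {x : ℝ | x ∈ Om ∧ T < x ∧ x ≤ 2 * T ∧ g x ∈ Om} with hA
  have hAS : ∀ x ∈ A, ι x ∈ SS T := by
    rintro x ⟨hx, hx1, hx2, _⟩
    rw [mem_SS hT.le, hι2 x hx]
    exact ⟨hx1, hx2⟩
  have hinjA : InjOn ι A := by
    intro x hx y hy hxy
    have h1 := hι2 x hx.1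
    rw [hxy, hι2 y hy.1] at h1
    exact h1.symm
  have hAfin : A.Finite := by
    apply Set.Finite.of_injOn (t := (SS T : Set ℕ)) (f := ι) hAS hinjA (SS T).finite_toSet
  refine ⟨hAfin.toFinset.image ι, fun n => ι (g (ord n)), ?_, ?_, ?_, ?_⟩
  · intro n hn
    rw [Finset.mem_image] at hn
    obtain ⟨x, hx, hxn⟩ := hn
    rw [← hxn]
    exact hAS x (hAfin.mem_toFinset.1 hx)
  · intro n hn m hm hnm
    rw [Finset.mem_coe, Finset.mem_image] at hn hm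
    obtain ⟨x, hx, hxn⟩ := hn
    obtain ⟨y, hy, hym⟩ := hm
    have hxA := hAfin.mem_toFinset.1 hx
    have hyA := hAfin.mem_toFinset.1 hy
    have e1 : ord n = x := by rw [← hxn]; exact hι2 x hxA.1
    have e2 : ord m = y := by rw [← hym]; exact hι2 y hyA.1
    simp only [e1, e2] at hnm
    have e3 : g x = g y := by
      rw [← hι2 _ hxA.2.2.2, ← hι2 _ hyA.2.2.2, hnm]
    rw [← hxn, ← hym, hg e3]
  · intro n hn
    rw [Finset.mem_image] at hn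
    obtain ⟨x, hx, hxn⟩ := hn
    have hxA := hAfin.mem_toFinset.1 hx
    have e1 : ord n = x := by rw [← hxn]; exact hι2 x hxA.1
    show ord (ι (g (ord n))) = g (ord n)
    rw [e1, hι2 _ hxA.2.2.2]
  · rw [Finset.card_image_of_injOn, Set.ncard_eq_toFinset_card A hAfin]
    rw [hAfin.coe_toFinset]
    exact hinjA

/-- the number of the elements of a matching -/
lemma card_bd {T κ : ℝ} (hT : 0 ≤ T) {G : Finset ℕ} (hG : G ⊆ SS T)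
    (h : κ * (T * Real.log T) ≤ ((SS T \ G).card : ℝ)) :
    (G.card : ℝ) ≤ (NZ (2 * T) : ℝ) - NZ T - κ * (T * Real.log T) := by
  rw [Finset.card_sdiff_of_subset hG, Nat.cast_sub (Finset.card_le_card hG), SS,
    card_win (by linarith)] at h
  linarith

lemma om_fin (a b : ℝ) (ha : 0 ≤ a) (hab : a ≤ b) :
    ({x : ℝ | x ∈ Om ∧ a < x ∧ x ≤ b}).Finite ∧
    (({x : ℝ | x ∈ Om ∧ a < x ∧ x ≤ b}).ncard : ℝ) ≤ (NZ b : ℝ) - NZ a := by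
  classical
  choose! ι hι1 hι2 using fun (x : ℝ) (hx : x ∈ Om) => exists_ord hx
  set A : Set ℝ := {x : ℝ | x ∈ Om ∧ a < x ∧ x ≤ b} with hA
  have hAS : ∀ x ∈ A, ι x ∈ ((Finset.Ioc (NZ a) (NZ b) : Finset ℕ) : Set ℕ) := by
    rintro x ⟨hx, hx1, hx2⟩
    rw [Finset.mem_coe, mem_win ha, hι2 x hx]
    exact ⟨hx1, hx2⟩
  have hinjA : InjOn ι A := by
    intro x hx y hy hxy
    have h1 := hι2 x hx.1
    rw [hxy, hι2 y hy.1] at h1
    exact h1.symm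
  have hfin : A.Finite := Set.Finite.of_injOn hAS hinjA (Finset.finite_toSet _)
  refine ⟨hfin, ?_⟩
  rw [← card_win hab]
  have h1 := Set.ncard_le_ncard_of_injOn ι hAS hinjA (Finset.finite_toSet _)
  rw [Set.ncard_coe_finset] at h1
  exact_mod_cast h1

/-- the representations as a sum of two ordinates -/
lemma sum_rep {T κ : ℝ} (hT : 10 ≤ T)
    (h : ({x : ℝ | x ∈ Om ∧ T < x ∧ x ≤ 2 * T ∧ 3 * T - x ∈ Om}.ncard : ℝ) ≤
      (NZ (2 * T) : ℝ) - NZ T - κ * (T * Real.log T)) :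
    ({x : ℝ | x ∈ Om ∧ 3 * T - x ∈ Om}.ncard : ℝ) ≤ NZ (3 * T) - κ * (T * Real.log T) := by
  have h1 := om_fin 0 T le_rfl (by linarith)
  have h2 := om_fin (2 * T) (3 * T) (by linarith) (by linarith)
  have hf3 : ({x : ℝ | x ∈ Om ∧ T < x ∧ x ≤ 2 * T ∧ 3 * T - x ∈ Om}).Finite :=
    (om_fin T (2 * T) (by linarith) (by linarith)).1.subset fun x hx => ⟨hx.1, hx.2.1, hx.2.2.1⟩
  have h3 : {x : ℝ | x ∈ Om ∧ 3 * T - x ∈ Om} ⊆ {x : ℝ | x ∈ Om ∧ 0 < x ∧ x ≤ T} ∪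
      ({x : ℝ | x ∈ Om ∧ T < x ∧ x ≤ 2 * T ∧ 3 * T - x ∈ Om} ∪
      {x : ℝ | x ∈ Om ∧ 2 * T < x ∧ x ≤ 3 * T}) := by
    rintro x ⟨hx, hx2⟩
    have hx0 : 0 < x := hx.1
    have hx3 : 0 < 3 * T - x := hx2.1
    rcases le_or_gt x T with k | k
    · left; exact ⟨hx, hx0, k⟩
    · right
      rcases le_or_gt x (2 * T) with k2 | k2
      · left; exact ⟨hx, k, k2, hx2⟩
      · right; exact ⟨hx, k2, by linarith⟩
  have h4 := Set.ncard_le_ncard h3 (h1.1.union (hf3.union h2.1))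
  have h5 := Set.ncard_union_le {x : ℝ | x ∈ Om ∧ 0 < x ∧ x ≤ T}
    ({x : ℝ | x ∈ Om ∧ T < x ∧ x ≤ 2 * T ∧ 3 * T - x ∈ Om} ∪
      {x : ℝ | x ∈ Om ∧ 2 * T < x ∧ x ≤ 3 * T})
  have h6 := Set.ncard_union_le {x : ℝ | x ∈ Om ∧ T < x ∧ x ≤ 2 * T ∧ 3 * T - x ∈ Om}
      {x : ℝ | x ∈ Om ∧ 2 * T < x ∧ x ≤ 3 * T}
  have h7 : ({x : ℝ | x ∈ Om ∧ 3 * T - x ∈ Om}.ncard : ℝ) ≤
      ({x : ℝ | x ∈ Om ∧ 0 < x ∧ x ≤ T}.ncard : ℝ) +
      (({x : ℝ | x ∈ Om ∧ T < x ∧ x ≤ 2 * T ∧ 3 * T - x ∈ Om}.ncard : ℝ) +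
      ({x : ℝ | x ∈ Om ∧ 2 * T < x ∧ x ≤ 3 * T}.ncard : ℝ)) := by
    exact_mod_cast h4.trans (h5.trans (by omega))
  have h8 : (0 : ℝ) ≤ NZ 0 := Nat.cast_nonneg _
  linarith [h1.2, h2.2]

end Pool.Agent.Y743.SD
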