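import Pool.Agent.Y743.AF.Gre

/-! Project SD (helper743): sums and differences of ordinates of zeta zeros.  Statements of the
tasks. -/

set_option autoImplicit false

open MeasureTheory Filter

namespace Pool.Agent.Y743.SD

open Pool.Agent.Y743.AF (Prm)

/-- SQ: the smooth twisted sum over all primes (on RH). -/
def S_SQ : Prop := RiemannHypothesis → ∀ K : ℝ, 0 < K → ∃ T0 : ℝ, 10 ≤ T0 ∧ ∀ T : ℝ, T0 ≤ T →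
  ∀ δ : ℝ, 0 < δ → δ ≤ 1 → ∀ c : ℝ, 2 * (K / Real.log T) ≤ c → c ≤ 4 * T →
    |∑' p : Nat.Primes, (p : ℝ) ^ (-(1 + δ)) * Real.sin (K / Real.log T / 2 * Real.log p) ^ 2 *
      Real.cos (c * Real.log p)| ≤ 1

/-- TL: the tail of the sum over the primes. -/
def S_TL : Prop := ∃ C : ℝ, 0 < C ∧ ∀ (X : ℕ) (δ : ℝ), 2 ≤ X → 0 < δ → 1 / 32 ≤ δ * Real.log X →
  ∑' p : Nat.Primes, (if (p : ℕ) ≤ X then 0 else (p : ℝ) ^ (-(1 + δ))) ≤ C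

/-- CO: the twisted sum over the primes up to `T ^ θ`. -/
def S_CO : Prop := RiemannHypothesis → ∃ C : ℝ, 0 < C ∧ ∀ K θ : ℝ, 0 < K → 0 < θ → θ ≤ 1 →
  ∃ T0 : ℝ, 10 ≤ T0 ∧ ∀ T : ℝ, T0 ≤ T → ∀ c : ℝ, 2 * (K / Real.log T) ≤ |c| → |c| ≤ 4 * T →
    |∑ p ∈ Prm ⌊T ^ θ⌋₊, Real.sin (K / Real.log T / 2 * Real.log p) ^ 2 / p *
      Real.cos (c * Real.log p)| ≤
    1 / 16 * (∑ p ∈ Prm ⌊T ^ θ⌋₊, Real.sin (K / Real.log T / 2 * Real.log p) ^ 2 / p) + C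

/-- IT: iteration of a partial matching. -/
def S_IT : Prop := ∀ (S : Finset ℕ) (g : ℕ → ℝ) (T c w : ℝ), 0 ≤ w →
  (∀ n, n ∈ S ↔ T < g n ∧ g n ≤ 2 * T) → ∀ (G : Finset ℕ) (σ : ℕ → ℕ), G ⊆ S → Set.InjOn σ G →
  (∀ n ∈ G, |g (σ n) - (g n + c)| ≤ w) → ∀ j : ℕ, 1 ≤ j →
    ∃ (G' : Finset ℕ) (σ' : ℕ → ℕ), G' ⊆ S ∧ Set.InjOn σ' G' ∧
      (∀ n ∈ G', |g (σ' n) - (g n + j * c)| ≤ j * w) ∧
      (S \ G').card ≤ j * (S \ G).card +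
        (S.filter (fun n => g n ≤ T + j * (|c| + w) ∨ 2 * T - j * (|c| + w) < g n)).card

/-- MC: the windows under a matching. -/
def S_MC : Prop := ∀ (S : Finset ℕ) (x y : ℕ → ℝ) (A B h η : ℝ), A ≤ B → 0 ≤ h → 0 ≤ η →
  ∃ w : ℝ → ℝ, IntervalIntegrable w volume A B ∧ (∀ t, 0 ≤ w t) ∧
    (∀ t ∈ Set.Icc A B, ((S.filter (fun n => (t < x n ∧ x n ≤ t + h) ∧
      ¬ (t < y n ∧ y n < t + h))).card : ℝ) ≤ w t) ∧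
    ∫ t in A..B, w t ≤ 2 * η * S.card + h * ((S.filter (fun n => η < |x n - y n|)).card : ℝ)

end Pool.Agent.Y743.SD
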